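import Pool.Agent.Y774.FP.Fin
import Pool.Agent.Y774.MD.Main
import Pool.Agent.TH339.MP.P9

/-!
# Elliptic curves over number fields of bounded degree
-/

set_option autoImplicit false

namespace Pool.Agent.Y774.FP

open Filter Topology MeasureTheory Finset Polynomial NumberField IsDedekindDomain
  Pool.Agent.H921R2.TatePole Pool.Agent.TH958.BV Pool.Agent.Y774.MD
open Pool.Agent.TH339.MP (av av_triv av_bound exists_roots)

section

variable {K : Type} [Field K] [NumberField K]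

open Classical in
/-- The coefficient of `X²`. -/
noncomputable def ev (W : HeightOneSpectrum (𝓞 K) → WeierstrassCurve (𝓞 K))
    (v : HeightOneSpectrum (𝓞 K)) : ℂ := if (W v).Δ ∈ v.asIdeal then 0 else (nm v : ℂ)

/-- The Euler factor as a polynomial. -/
noncomputable def BW (W : HeightOneSpectrum (𝓞 K) → WeierstrassCurve (𝓞 K))
    (v : HeightOneSpectrum (𝓞 K)) : ℂ[X] :=
  1 - C ((av W v : ℝ) : ℂ) * X + C (ev W v) * X ^ 2

variable (W : HeightOneSpectrum (𝓞 K) → WeierstrassCurve (𝓞 K))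

lemma norm_ev (v : HeightOneSpectrum (𝓞 K)) : ‖ev W v‖ ≤ nm v := by
  unfold ev
  split_ifs <;> simp

lemma BW_eval (v : HeightOneSpectrum (𝓞 K)) (z : ℂ) :
    (BW W v).eval z = 1 - ((av W v : ℝ) : ℂ) * z + ev W v * z ^ 2 := by
  unfold BW
  simp

lemma BW_coeff (v : HeightOneSpectrum (𝓞 K)) : (BW W v).coeff 0 = 1 := by
  rw [coeff_zero_eq_eval_zero, BW_eval]
  simp

lemma BW_ne (v : HeightOneSpectrum (𝓞 K)) : BW W v ≠ 0 := by
  intro h
  have := BW_coeff W v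
  rw [h] at this
  simp at this

lemma BW_deg (v : HeightOneSpectrum (𝓞 K)) : (BW W v).natDegree ≤ 2 := by
  unfold BW
  refine (natDegree_add_le _ _).trans (max_le ?_ ?_)
  · refine (natDegree_sub_le _ _).trans (max_le (by simp) ?_)
    exact (natDegree_C_mul_le _ _).trans (by rw [natDegree_X]; norm_num)
  · exact natDegree_C_mul_X_pow_le _ _

/-- The zeros have absolute value at least `Nv^{-1/2}` unless `v` divides `6`. -/
lemma BW_zero {v : HeightOneSpectrum (𝓞 K)} (h6 : (6 : 𝓞 K) ∉ v.asIdeal) {z : ℂ}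
    (hz : (BW W v).eval z = 0) : (nm v : ℝ) ^ (-(1 / 2) : ℝ) ≤ ‖z‖ := by
  classical
  have hq : (0 : ℝ) < nm v := by exact_mod_cast MD.nm_pos v
  have hq1 : (1 : ℝ) ≤ nm v := by exact_mod_cast MD.nm_pos v
  have hb := av_bound W v h6
  rw [BW_eval] at hz
  by_cases h : (W v).Δ ∈ v.asIdeal
  · rw [if_pos h] at hb
    have he : ev W v = 0 := by
      unfold ev
      rw [if_pos h]
    rw [he, zero_mul, add_zero, sub_eq_zero] at hz
    have h1 : ‖((av W v : ℝ) : ℂ)‖ * ‖z‖ = 1 := by rw [← norm_mul, ← hz, norm_one]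
    rw [Complex.norm_real, Real.norm_eq_abs] at h1
    have h2 : 1 ≤ ‖z‖ := by
      by_contra h3
      push Not at h3
      nlinarith [abs_nonneg (av W v), norm_nonneg z]
    refine le_trans ?_ h2
    exact Real.rpow_le_one_of_one_le_of_nonpos hq1 (by norm_num)
  · rw [if_neg h] at hb
    have he : ev W v = (nm v : ℂ) := by
      unfold ev
      rw [if_neg h]
    obtain ⟨α, h1, h2, h3⟩ := exists_roots hq (a := av W v) hb
    have h4 : (1 - α 0 * z) * (1 - α 1 * z) = 0 := by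
      have h5 : (1 - α 0 * z) * (1 - α 1 * z) = 1 - (α 0 + α 1) * z + (α 0 * α 1) * z ^ 2 := by ring
      rw [h5, h2, h3, ← hz, he]
      push_cast
      ring
    have h5 : ∃ j, α j * z = 1 := by
      rcases mul_eq_zero.1 h4 with h5 | h5
      · exact ⟨0, (sub_eq_zero.1 h5).symm⟩
      · exact ⟨1, (sub_eq_zero.1 h5).symm⟩
    obtain ⟨j, hj⟩ := h5
    have h6 : Real.sqrt (nm v) * ‖z‖ = 1 := by
      rw [← h1 j, ← norm_mul, hj, norm_one]
    rw [Real.rpow_neg hq.le, ← Real.sqrt_eq_rpow]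
    exact le_of_eq (eq_inv_of_mul_eq_one_right h6).symm

/-- No zeros in `|z| ≤ Nv^{-3/2}`. -/
lemma BW_small (v : HeightOneSpectrum (𝓞 K)) {z : ℂ} (hz : ‖z‖ ≤ (nm v : ℝ) ^ (-(3 / 2) : ℝ)) :
    (BW W v).eval z ≠ 0 := by
  have hq2 : (2 : ℝ) ≤ nm v := by exact_mod_cast two_le_nm v
  have hq0 : (0 : ℝ) < nm v := by linarith
  have h1 : (nm v : ℝ) * (nm v : ℝ) ^ (-(3 / 2) : ℝ) ≤ 708 / 1000 := by
    have e1 : (nm v : ℝ) * (nm v : ℝ) ^ (-(3 / 2) : ℝ) = (Real.sqrt (nm v))⁻¹ := by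
      rw [Real.sqrt_eq_rpow, ← Real.rpow_neg hq0.le]
      nth_rewrite 1 [← Real.rpow_one (nm v : ℝ)]
      rw [← Real.rpow_add hq0]
      norm_num
    rw [e1, inv_le_comm₀ (Real.sqrt_pos.2 hq0) (by norm_num)]
    refine Real.le_sqrt_of_sq_le ?_
    norm_num
    linarith
  have h2 : (nm v : ℝ) * ((nm v : ℝ) ^ (-(3 / 2) : ℝ)) ^ 2 ≤ 1 / 4 := by
    have e1 : (nm v : ℝ) * ((nm v : ℝ) ^ (-(3 / 2) : ℝ)) ^ 2 = ((nm v : ℝ) ^ 2)⁻¹ := by
      rw [← Real.rpow_natCast, ← Real.rpow_mul hq0.le]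
      nth_rewrite 1 [← Real.rpow_one (nm v : ℝ)]
      rw [← Real.rpow_add hq0, ← Real.rpow_natCast (nm v : ℝ) 2, ← Real.rpow_neg hq0.le]
      norm_num
    rw [e1, inv_le_comm₀ (by positivity) (by norm_num)]
    nlinarith
  have h3 : ‖((av W v : ℝ) : ℂ) * z‖ ≤ 708 / 1000 := by
    rw [norm_mul, Complex.norm_real, Real.norm_eq_abs]
    exact (mul_le_mul (av_triv W v) hz (norm_nonneg _) hq0.le).trans h1
  have h4 : ‖ev W v * z ^ 2‖ ≤ 1 / 4 := by
    rw [norm_mul, norm_pow]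
    exact (mul_le_mul (norm_ev W v) (pow_le_pow_left₀ (norm_nonneg _) hz 2) (by positivity)
      hq0.le).trans h2
  intro h0
  rw [BW_eval] at h0
  have h7 : (1 : ℂ) = ((av W v : ℝ) : ℂ) * z - ev W v * z ^ 2 := by linear_combination h0
  have h8 : ‖(1 : ℂ)‖ ≤ ‖((av W v : ℝ) : ℂ) * z‖ + ‖ev W v * z ^ 2‖ := by
    rw [h7]
    exact norm_sub_le _ _
  rw [norm_one] at h8
  linarith

lemma not_six {v : HeightOneSpectrum (𝓞 K)} (h2 : (below v : ℕ) ≠ 2) (h3 : (below v : ℕ) ≠ 3) :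
    (6 : 𝓞 K) ∉ v.asIdeal := by
  intro h6
  obtain ⟨-, -, hm⟩ := nm_eq v
  have hp := (below v).2
  have hco : Nat.Coprime (below v : ℕ) 6 := by
    rw [Nat.Prime.coprime_iff_not_dvd hp]
    intro hd
    have h4 : (below v : ℕ) ∣ 2 * 3 := hd
    rcases (Nat.Prime.dvd_mul hp).1 h4 with h5 | h5
    · exact h2 ((Nat.prime_dvd_prime_iff_eq hp Nat.prime_two).1 h5)
    · exact h3 ((Nat.prime_dvd_prime_iff_eq hp Nat.prime_three).1 h5)
  obtain ⟨a, b, hab⟩ := Nat.isCoprime_iff_coprime.2 hco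
  apply v.isPrime.ne_top
  rw [Ideal.eq_top_iff_one]
  have h4 : (1 : 𝓞 K) = (a : 𝓞 K) * ((below v : ℕ) : 𝓞 K) + (b : 𝓞 K) * 6 := by
    have := congrArg (Int.cast : ℤ → 𝓞 K) hab
    push_cast at this
    exact this.symm
  rw [h4]
  exact v.asIdeal.add_mem (v.asIdeal.mul_mem_left _ hm) (v.asIdeal.mul_mem_left _ h6)

lemma BW_tempered : IsTempered (BW W) 1 2 := by
  classical
  refine ⟨BW_ne W, ?_⟩
  have hfin : {v : HeightOneSpectrum (𝓞 K) | (below v : ℕ) = 2 ∨ (below v : ℕ) = 3}.Finite := by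
    have h1 : ∀ p : Nat.Primes, {v : HeightOneSpectrum (𝓞 K) | below v = p}.Finite := fun p =>
      Set.finite_coe_iff.1 (Finite.of_fintype {v : HeightOneSpectrum (𝓞 K) // below v = p})
    refine ((h1 ⟨2, Nat.prime_two⟩).union (h1 ⟨3, Nat.prime_three⟩)).subset ?_
    rintro v (hv | hv)
    · exact Or.inl (Subtype.ext hv)
    · exact Or.inr (Subtype.ext hv)
  filter_upwards [hfin.compl_mem_cofinite] with v hv
  rw [Set.mem_compl_iff, Set.mem_ofPred_eq, not_or] at hv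
  exact ⟨BW_coeff W v, BW_deg W v, fun z hz => BW_zero W (not_six hv.1 hv.2) hz⟩

/-- Good at every prime number. -/
lemma BW_goodAt {q : ℕ} (hq : q.Prime) : GoodAt (GP (BW W) 1 q) q := by
  have hq0 : (0 : ℝ) < q := by exact_mod_cast hq.pos
  refine ⟨?_, fun z hz => ?_⟩
  · rw [coeff_zero_GP (BW W) 1 hq]
    exact prod_eq_one fun v _ => BW_coeff W v.1
  · rw [GP_eval (BW W) 1 hq, prod_eq_zero_iff] at hz
    obtain ⟨v, -, hv⟩ := hz
    by_contra h
    push Not at h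
    refine BW_small W v.1 ?_ hv
    obtain ⟨h1, h2, -⟩ := nm_eq v.1
    have hb : ((below v.1 : Nat.Primes) : ℕ) = q := by rw [v.2]
    rw [hb] at h1
    have hn : (0 : ℝ) < nm v.1 := by exact_mod_cast MD.nm_pos v.1
    rw [norm_mul, norm_pow, Complex.norm_real, Real.norm_of_nonneg (by positivity)]
    have h3 : ‖z‖ ^ deg v.1 ≤ (nm v.1 : ℝ) ^ (-1 : ℝ) := by
      calc ‖z‖ ^ deg v.1 ≤ (1 / (q : ℝ)) ^ deg v.1 := pow_le_pow_left₀ (norm_nonneg _) h _
        _ = (nm v.1 : ℝ) ^ (-1 : ℝ) := by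
            rw [h1, Real.rpow_neg_one, Nat.cast_pow, one_div, inv_pow]
    calc (nm v.1 : ℝ) ^ (-(1 / 2) : ℝ) * ‖z‖ ^ deg v.1
        ≤ (nm v.1 : ℝ) ^ (-(1 / 2) : ℝ) * (nm v.1 : ℝ) ^ (-1 : ℝ) :=
          mul_le_mul_of_nonneg_left h3 (by positivity)
      _ = (nm v.1 : ℝ) ^ (-(3 / 2) : ℝ) := by
          rw [← Real.rpow_add hn]
          norm_num

end

/-- The possible Euler factors, normalised. -/
noncomputable def FF3 (p : ℕ) (x : ℕ × ℤ × Bool) : ℂ[X] :=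
  (1 - C (x.2.1 : ℂ) * X + C (if x.2.2 then 0 else ((p ^ x.1 : ℕ) : ℂ)) * X ^ 2).comp
    (C ((((((p ^ x.1 : ℕ) : ℝ)) ^ (-((1 : ℝ) / 2)) : ℝ)) : ℂ) * X ^ x.1)

/-- A finite set containing the Euler factors at `v` above `p` for fields of degree `≤ n`. -/
def TT (n p : ℕ) : Set ℂ[X] :=
  FF3 p '' (Set.Iic n ×ˢ (Set.Icc (-((p : ℤ) ^ n)) ((p : ℤ) ^ n) ×ˢ Set.univ))

lemma TT_finite (n p : ℕ) : (TT n p).Finite :=
  ((Set.finite_Iic n).prod ((Set.finite_Icc _ _).prod Set.finite_univ)).image _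

/-- A finite set containing the products of the Euler factors above `p`. -/
def SS (n p : ℕ) : Set ℂ[X] :=
  ⋃ k ∈ Set.Iic n, (fun g : Fin k → ℂ[X] => ∏ i, g i) '' {g | ∀ i, g i ∈ TT n p}

lemma SS_finite (n p : ℕ) : (SS n p).Finite :=
  (Set.finite_Iic n).biUnion fun k _ => (Set.Finite.pi' fun _ => TT_finite n p).image _

section

variable {K : Type} [Field K] [NumberField K]
  (W : HeightOneSpectrum (𝓞 K) → WeierstrassCurve (𝓞 K))

lemma GP_mem_SS {n : ℕ} (hn : Module.finrank ℚ K ≤ n) {p : ℕ} (hp : p.Prime) :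
    GP (BW W) 1 p ∈ SS n p := by
  classical
  have hfac : ∀ v : {v : HeightOneSpectrum (𝓞 K) // below v = ⟨p, hp⟩},
      (BW W v.1).comp (C ((((nm v.1 : ℝ) ^ (-((1 : ℝ) / 2)) : ℝ) : ℂ)) * X ^ deg v.1) ∈ TT n p := by
    intro v
    obtain ⟨h1, h2, -⟩ := nm_eq v.1
    have hb : ((below v.1 : Nat.Primes) : ℕ) = p := by rw [v.2]
    rw [hb] at h1
    have hd : deg v.1 ≤ n := (deg_le v.1).trans hn
    set A : ℤ := (nm v.1 : ℤ) - (Pool.Agent.TH339.MP.affc ((W v.1).map (Ideal.Quotient.mk v.1.asIdeal)) : ℤ)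
      with hA
    have hav : Pool.Agent.TH339.MP.av W v.1 = (A : ℝ) := by
      rw [hA]
      unfold Pool.Agent.TH339.MP.av
      push_cast
      rfl
    have hAb : |A| ≤ (nm v.1 : ℤ) := by
      have h3 := av_triv W v.1
      rw [hav] at h3
      have h4 : |(A : ℝ)| ≤ ((nm v.1 : ℤ) : ℝ) := by
        refine h3.trans (le_of_eq ?_)
        norm_cast
      exact_mod_cast h4
    have hAn : (nm v.1 : ℤ) ≤ (p : ℤ) ^ n := by
      rw [h1]
      push_cast
      exact pow_le_pow_right₀ (by exact_mod_cast hp.one_le) hd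
    refine ⟨(deg v.1, A, decide ((W v.1).Δ ∈ v.1.asIdeal)), ⟨hd, ?_, Set.mem_univ _⟩, ?_⟩
    · rw [Set.mem_Icc, ← abs_le]
      exact hAb.trans hAn
    · unfold FF3 BW ev
      simp only [decide_eq_true_eq]
      rw [hav, ← h1]
      push_cast
      rfl
  unfold SS
  simp only [Set.mem_iUnion]
  refine ⟨Fintype.card {v : HeightOneSpectrum (𝓞 K) // below v = ⟨p, hp⟩},
    (fiber_card_le _).trans hn,
    fun i => (BW W ((Fintype.equivFin _).symm i).1).comp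
      (C ((((nm ((Fintype.equivFin _).symm i).1 : ℝ) ^ (-((1 : ℝ) / 2)) : ℝ) : ℂ)) *
        X ^ deg ((Fintype.equivFin _).symm i).1), fun i => hfac _, ?_⟩
  unfold GP
  rw [dif_pos hp]
  exact Equiv.prod_comp (Fintype.equivFin {v : HeightOneSpectrum (𝓞 K) // below v = ⟨p, hp⟩}).symm
    (fun v => (BW W v.1).comp (C ((((nm v.1 : ℝ) ^ (-((1 : ℝ) / 2)) : ℝ) : ℂ)) * X ^ deg v.1))

end

/-- Uniform bounds for the Euler products of elliptic curves over fields of degree at most `n`. -/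
theorem euler (n : ℕ) : ∃ C : ℝ, ∀ (K : Type) [Field K] [NumberField K],
    Module.finrank ℚ K ≤ n → ∀ W : HeightOneSpectrum (𝓞 K) → WeierstrassCurve (𝓞 K),
      IsEuler (GP (BW W) 1) (2 * n * n) 0 C {2, 3} := by
  classical
  obtain ⟨M, hM⟩ : ∃ M : ℝ, ∀ Q ∈ SS n 2 ∪ SS n 3, ‖Q.coeff 1‖ ≤ M := by
    obtain ⟨M, hM⟩ := (((SS_finite n 2).union (SS_finite n 3)).image fun Q => ‖Q.coeff 1‖).bddAbove
    exact ⟨M, fun Q hQ => hM ⟨Q, hQ, rfl⟩⟩
  set D : ℕ := 2 * n * n with hD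
  refine ⟨(D : ℝ) ^ 2 * Real.log 4 + ∑ p ∈ ({2, 3} : Finset ℕ), M ^ 2 * Real.log p, ?_⟩
  intro K _ _ hn W
  have hgood : ∀ p : ℕ, p.Prime → p ∉ ({2, 3} : Finset ℕ) → (GP (BW W) 1 p).coeff 0 = 1 ∧
      (GP (BW W) 1 p).natDegree ≤ D ∧
      ∀ z : ℂ, (GP (BW W) 1 p).eval z = 0 → (p : ℝ) ^ (-(0 : ℝ)) ≤ ‖z‖ := by
    intro p hp hpE
    have h23 : p ≠ 2 ∧ p ≠ 3 := by
      simpa [not_or] using hpE
    obtain ⟨a, b, c⟩ := GP_good (B := BW W) (w := 1) (N := 2) hp fun v hv =>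
      ⟨BW_coeff W v, BW_deg W v, fun z hz =>
        BW_zero W (not_six (by rw [hv]; exact h23.1) (by rw [hv]; exact h23.2)) hz⟩
    refine ⟨a, b.trans ?_, c⟩
    rw [hD]
    exact Nat.mul_le_mul (Nat.mul_le_mul_left _ hn) hn
  refine ⟨fun p _ => GP_ne (BW_ne W) 1 p, by norm_num, hgood, fun x => ?_⟩
  rcases Nat.eq_zero_or_pos x with hx | hx
  · subst hx
    simp
  have hx1 : (1 : ℝ) ≤ x := by exact_mod_cast hx
  have hlog : ∀ p : ℕ, 0 ≤ Real.log p := fun p => Real.log_natCast_nonneg p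
  have h1 : ∑ p ∈ (range x).filter Nat.Prime, ‖(GP (BW W) 1 p).coeff 1‖ ^ 2 * Real.log p ≤
      ∑ p ∈ (range x).filter Nat.Prime, ((D : ℝ) ^ 2 * Real.log p +
        if p ∈ ({2, 3} : Finset ℕ) then M ^ 2 * Real.log p else 0) := by
    refine sum_le_sum fun p hp => ?_
    have hpp := (mem_filter.1 hp).2
    split_ifs with hpE
    · have h2 : ‖(GP (BW W) 1 p).coeff 1‖ ≤ M := by
        refine hM _ ?_
        rw [mem_insert, mem_singleton] at hpE
        rcases hpE with rfl | rfl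
        · exact Or.inl (GP_mem_SS W hn hpp)
        · exact Or.inr (GP_mem_SS W hn hpp)
      have h3 : ‖(GP (BW W) 1 p).coeff 1‖ ^ 2 ≤ M ^ 2 := pow_le_pow_left₀ (norm_nonneg _) h2 2
      have h4 := mul_le_mul_of_nonneg_right h3 (hlog p)
      have h5 : 0 ≤ (D : ℝ) ^ 2 * Real.log p := by have := hlog p; positivity
      linarith
    · rw [add_zero]
      refine mul_le_mul_of_nonneg_right ?_ (hlog p)
      obtain ⟨a, b, c⟩ := hgood p hpp hpE
      refine pow_le_pow_left₀ (norm_nonneg _) (coeff_one_bound a b fun z hz => ?_) 2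
      have := c z hz
      rwa [neg_zero, Real.rpow_zero] at this
  refine h1.trans ?_
  rw [sum_add_distrib, ← mul_sum, ← sum_filter, add_mul]
  refine add_le_add ?_ ?_
  · have h2 : ∑ p ∈ (range x).filter Nat.Prime, Real.log p ≤ Real.log 4 * x := by
      refine le_trans ?_ (Chebyshev.theta_le_log4_mul_x (Nat.cast_nonneg x))
      unfold Chebyshev.theta
      refine sum_le_sum_of_subset_of_nonneg (fun p hp => ?_) fun p _ _ => hlog p
      rw [mem_filter, mem_range] at hp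
      rw [mem_filter, mem_Ioc, Nat.floor_natCast]
      exact ⟨⟨hp.2.pos, hp.1.le⟩, hp.2⟩
    calc (D : ℝ) ^ 2 * ∑ p ∈ (range x).filter Nat.Prime, Real.log p ≤
          (D : ℝ) ^ 2 * (Real.log 4 * x) := mul_le_mul_of_nonneg_left h2 (by positivity)
      _ = _ := by ring
  · have h3 : ∀ p : ℕ, 0 ≤ M ^ 2 * Real.log p := fun p => by
      have := hlog p
      positivity
    calc ∑ p ∈ ((range x).filter Nat.Prime).filter (fun p => p ∈ ({2, 3} : Finset ℕ)),
          M ^ 2 * Real.log p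
        ≤ ∑ p ∈ ({2, 3} : Finset ℕ), M ^ 2 * Real.log p :=
          sum_le_sum_of_subset_of_nonneg (fun p hp => (mem_filter.1 hp).2) fun p _ _ => h3 p
      _ ≤ (∑ p ∈ ({2, 3} : Finset ℕ), M ^ 2 * Real.log p) * x :=
          le_mul_of_one_le_right (sum_nonneg fun p _ => h3 p) hx1

end Pool.Agent.Y774.FP
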