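import Pool.Agent.Y774.FP.Win
import Pool.Agent.Y774.MD.Atoms

/-!
# The concentration function over windows
-/

set_option autoImplicit false

namespace Pool.Agent.Y774.FP

open Filter Topology MeasureTheory Finset Pool.Agent.W350.Edge Pool.Agent.Y774.MD
open scoped ENNReal

/-- The tails are small in mean over all unit intervals, uniformly in the data. -/
lemma tail_unif (C : ℝ) (e : ℕ → ℝ) (E : Finset ℕ) {η : ℝ} (hη : 0 < η) :
    ∃ J₀, ∀ (r : ℕ → ℝ → ℝ) (c : ℕ → ℂ), Approx r c C e E → ∀ G : ℝ → ℝ,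
      (∀ᵐ τ : ℝ, Tendsto (fun x => rS r x τ) atTop (𝓝 (G τ))) → ∀ J, J₀ ≤ J → ∀ m : ℝ,
      ∫⁻ τ in Set.Ioc m (m + 1), ‖G τ - rS r (NN 1 J) τ‖ₑ ≤ ENNReal.ofReal η := by
  classical
  obtain ⟨M, hM⟩ := E.finite_toSet.bddAbove
  have t1 := tendsto_sum_nat_add (om C)
  have t2 : Tendsto (fun J => ∑' k, e (k + NN 1 J)) atTop (𝓝 0) :=
    (tendsto_sum_nat_add e).comp (tendsto_NN 1)
  have t3 := (tendsto_NN 1).eventually (eventually_gt_atTop M)
  have t4 := (t1.add t2).eventually (gt_mem_nhds (show (0 : ℝ) + 0 < η by linarith))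
  obtain ⟨J₀, hJ₀⟩ := (t3.and t4).exists_forall_of_atTop
  refine ⟨J₀, fun r c h G hG J hJ m => ?_⟩
  obtain ⟨hJ1, hJ2⟩ := hJ₀ J hJ
  set X := NN 1 J with hX
  have hmono : Monotone (NN 1) := monotone_nat_of_le_succ (NN_le 1)
  have hC := h.bb.nonneg
  -- the bound for the partial sums
  have hk : ∀ k, J ≤ k → ∫⁻ τ in Set.Ioc m (m + 1), ‖rS r (NN 1 k) τ - rS r X τ‖ₑ ≤
      ENNReal.ofReal η := by
    intro k hk
    have hXk : X ≤ NN 1 k := hmono hk
    have hpt : ∀ τ : ℝ, ‖rS r (NN 1 k) τ - rS r X τ‖ₑ ≤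
        (∑ j ∈ Ico J k, ‖bS c j τ‖ₑ) + ENNReal.ofReal (∑' k, e (k + X)) := by
      intro τ
      have h1 : ‖rS r (NN 1 k) τ - rS r X τ‖ ≤ (∑ j ∈ Ico J k, ‖bS c j τ‖) + ∑' k, e (k + X) := by
        unfold rS
        rw [sum_Ico_filter _ hXk]
        have h2 : ∑ p ∈ (Ico X (NN 1 k)).filter Nat.Prime, r p τ =
            (∑ j ∈ Ico J k, bS c j τ).re +
            ∑ p ∈ (Ico X (NN 1 k)).filter Nat.Prime,
              (r p τ - (c p * Complex.exp (-(τ * Real.log p) * Complex.I)).re) := by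
          have h3 : ∑ j ∈ Ico J k, bS c j τ = ∑ p ∈ (Ico X (NN 1 k)).filter Nat.Prime,
              c p * Complex.exp (-(τ * Real.log p) * Complex.I) := by
            simp_rw [bS_eq]
            rw [sum_Ico_sub (fun j => pS c τ (NN 1 j)) hk]
            unfold pS
            rw [sum_Ico_filter _ hXk]
          rw [h3, Complex.re_sum, ← sum_add_distrib]
          exact sum_congr rfl fun p _ => by ring
        rw [h2]
        refine (norm_add_le _ _).trans (add_le_add ?_ ?_)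
        · rw [Real.norm_eq_abs]
          exact (Complex.abs_re_le_norm _).trans (norm_sum_le _ _)
        · refine (norm_sum_le_of_le (n := e) _ fun p hp => ?_).trans ?_
          · rw [mem_filter, mem_Ico] at hp
            refine h.hr p hp.2 (fun h3 => ?_) τ
            have := hM h3
            omega
          · have h3 : ∑ p ∈ (Ico X (NN 1 k)).filter Nat.Prime, e p ≤ ∑ p ∈ Ico X (NN 1 k), e p :=
              sum_le_sum_of_subset_of_nonneg (filter_subset _ _) fun p _ _ => h.e0 p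
            refine h3.trans ?_
            rw [sum_Ico_eq_sum_range]
            have h4 : Summable fun k => e (k + X) := (summable_nat_add_iff X).2 h.he
            refine le_trans (le_of_eq (sum_congr rfl fun i _ => ?_))
              (h4.sum_le_tsum (range (NN 1 k - X)) fun i _ => h.e0 _)
            rw [add_comm]
      have h0 : 0 ≤ ∑' k, e (k + X) := tsum_nonneg fun _ => h.e0 _
      rw [← ofReal_norm]
      refine (ENNReal.ofReal_le_ofReal h1).trans ?_
      rw [ENNReal.ofReal_add (sum_nonneg fun _ _ => norm_nonneg _) h0,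
        ENNReal.ofReal_sum_of_nonneg fun _ _ => norm_nonneg _]
      simp_rw [ofReal_norm]
      exact le_rfl
    refine (lintegral_mono hpt).trans ?_
    rw [lintegral_add_right _ measurable_const, lintegral_finsetSum _
      fun j _ => (continuous_bS c j).measurable.enorm, lintegral_const,
      Measure.restrict_apply_univ, Real.volume_Ioc]
    have h1 : m + 1 - m = 1 := by ring
    rw [h1, ENNReal.ofReal_one, mul_one]
    have h0 : 0 ≤ ∑' k, e (k + X) := tsum_nonneg fun _ => h.e0 _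
    calc (∑ j ∈ Ico J k, ∫⁻ τ in Set.Ioc m (m + 1), ‖bS c j τ‖ₑ) + ENNReal.ofReal (∑' k, e (k + X))
        ≤ (∑ j ∈ Ico J k, ENNReal.ofReal (om C j)) + ENNReal.ofReal (∑' k, e (k + X)) := by
          gcongr with j _
          exact lint_bS h.bb j m
      _ = ENNReal.ofReal ((∑ j ∈ Ico J k, om C j) + ∑' k, e (k + X)) := by
          rw [ENNReal.ofReal_add (sum_nonneg fun _ _ => om_nonneg hC _) h0,
            ENNReal.ofReal_sum_of_nonneg fun _ _ => om_nonneg hC _]
      _ ≤ ENNReal.ofReal η := by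
          refine ENNReal.ofReal_le_ofReal (le_trans (add_le_add ?_ le_rfl) hJ2.le)
          rw [sum_Ico_eq_sum_range]
          have h4 : Summable fun k => om C (k + J) := (summable_nat_add_iff J).2 (om_summable C)
          refine le_trans (le_of_eq (sum_congr rfl fun i _ => ?_))
            (h4.sum_le_tsum (range (k - J)) fun i _ => om_nonneg hC _)
          rw [add_comm]
  -- Fatou
  have hlim : ∀ᵐ τ ∂(volume.restrict (Set.Ioc m (m + 1))),
      ‖G τ - rS r X τ‖ₑ ≤ liminf (fun k => ‖rS r (NN 1 k) τ - rS r X τ‖ₑ) atTop := by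
    filter_upwards [ae_restrict_of_ae hG] with τ hτ
    have h1 : Tendsto (fun k => ‖rS r (NN 1 k) τ - rS r X τ‖ₑ) atTop (𝓝 ‖G τ - rS r X τ‖ₑ) :=
      ((hτ.comp (tendsto_NN 1)).sub_const _).enorm
    rw [h1.liminf_eq]
  refine (lintegral_mono_ae hlim).trans ?_
  refine (lintegral_liminf_le fun k => ((measurable_rS h.meas _).sub
    (measurable_rS h.meas _)).enorm).trans ?_
  refine liminf_le_of_le (by isBoundedDefault) fun b hb => ?_
  obtain ⟨k, hk1, hk2⟩ := (hb.and (eventually_ge_atTop J)).exists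
  exact hk1.trans (hk k hk2)


/-- Integrals over windows. -/
lemma lint_window (ψ : ℝ → ℝ≥0∞) (b : ℝ) {T : ℝ} (hT : 0 ≤ T) {K : ℝ≥0∞}
    (hK : ∀ m : ℝ, ∫⁻ τ in Set.Ioc m (m + 1), ψ τ ≤ K) :
    ∫⁻ τ in Set.Ioc b (b + T), ψ τ ≤ ⌈T⌉₊ * K := by
  set n : ℕ := ⌈T⌉₊ with hn
  have hsub : Set.Ioc b (b + T) ⊆ ⋃ k ∈ Finset.range n, Set.Ioc (b + (k : ℝ)) (b + (k : ℝ) + 1) := by
    intro τ hτ
    simp only [Set.mem_iUnion, Finset.mem_range]
    obtain ⟨k, hk⟩ : ∃ k : ℕ, ⌈τ - b⌉₊ = k + 1 := by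
      refine Nat.exists_eq_succ_of_ne_zero ?_
      rw [← Nat.pos_iff_ne_zero, Nat.ceil_pos]
      linarith [hτ.1]
    refine ⟨k, ?_, ?_, ?_⟩
    · have : ⌈τ - b⌉₊ ≤ n := Nat.ceil_mono (by linarith [hτ.2])
      omega
    · have : (k : ℝ) < τ - b := by
        rw [← Nat.lt_ceil, hk]
        omega
      linarith
    · have h4 : τ - b ≤ (k + 1 : ℕ) := by
        rw [← Nat.ceil_le, hk]
      push_cast at h4
      linarith
  have hunion : ∀ n : ℕ,
      ∫⁻ τ in ⋃ k ∈ Finset.range n, Set.Ioc (b + (k : ℝ)) (b + (k : ℝ) + 1), ψ τ ≤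
      ∑ k ∈ Finset.range n, ∫⁻ τ in Set.Ioc (b + (k : ℝ)) (b + (k : ℝ) + 1), ψ τ := by
    intro n
    induction n with
    | zero => simp
    | succ n ih =>
      rw [Finset.range_add_one, Finset.set_biUnion_insert, Finset.sum_insert (by simp)]
      refine (lintegral_union_le _ _ _).trans ?_
      gcongr
  refine (lintegral_mono_set hsub).trans ((hunion n).trans ?_)
  refine (sum_le_sum fun (k : ℕ) _ => hK (b + (k : ℝ))).trans (le_of_eq ?_)
  rw [sum_const, card_range, nsmul_eq_mul]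

variable {ι : Type} {ℱ : Filter ι} {a T : ι → ℝ}

/-- The mean of `e^{iwG}` over windows. -/
theorem char_bound (hT : Tendsto T ℱ atTop) {r : ι → ℕ → ℝ → ℝ} {c : ι → ℕ → ℂ} {C : ℝ}
    {e : ℕ → ℝ} {E : Finset ℕ} (h : ∀ i, Approx (r i) (c i) C e E) {ρ : ℕ → ℝ → ℝ}
    (hρm : ∀ p, Measurable (ρ p))
    (hper : ∀ p, p.Prime → Function.Periodic (ρ p) (2 * Real.pi / Real.log p))
    (hev : ∀ p, ∀ᶠ i in ℱ, r i p = ρ p) {G : ι → ℝ → ℝ}
    (hG : ∀ i, ∀ᵐ τ : ℝ, Tendsto (fun x => rS (r i) x τ) atTop (𝓝 (G i τ))) {q : ℕ}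
    (hq : q.Prime) (w : ℝ) {η : ℝ} (hη : 0 < η) :
    ∀ᶠ i in ℱ, ‖∫ τ in (a i)..(a i + T i), ei (w * G i τ)‖ ≤
      (‖(∫ τ in (0 : ℝ)..(2 * Real.pi / Real.log q), ei (w * ρ q τ)) /
        (2 * Real.pi / Real.log q : ℝ)‖ + η) * T i := by
  have hGm : ∀ i, AEMeasurable (G i) := fun i => ae_measurable_of_tendsto (h i).meas (hG i)
  set g : ι → ℝ → ℂ := fun i τ => ei (w * (G i τ - ρ q τ)) with hg
  have hgm : ∀ i, AEMeasurable (g i) := fun i =>
    continuous_ei.measurable.comp_aemeasurable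
      (((hGm i).sub (hρm q).aemeasurable).const_mul w)
  have hcl : Cl ℱ a T q g := by
    refine Cl.lim hT hgm fun η hη => ?_
    obtain ⟨J₀, hJ₀⟩ := tail_unif C e E (η := η / (2 * (|w| + 1))) (by positivity)
    obtain ⟨J, hJ1, hJ2⟩ : ∃ J, J₀ ≤ J ∧ q < NN 1 J := by
      obtain ⟨J, hJ⟩ := ((tendsto_NN 1).eventually (eventually_gt_atTop q)).exists_forall_of_atTop
      exact ⟨max J₀ J, le_max_left _ _, hJ _ (le_max_right _ _)⟩
    set F := ((range (NN 1 J)).filter Nat.Prime).erase q with hF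
    have hqF : q ∈ (range (NN 1 J)).filter Nat.Prime := mem_filter.2 ⟨mem_range.2 hJ2, hq⟩
    refine ⟨fun _ τ => ∏ p ∈ F, ei (w * ρ p τ), ?_, ?_⟩
    · refine Cl.prod hT hq F (fun p hp => ?_) (fun p τ => ei (w * ρ p τ)) (fun p => ?_)
        (fun p τ => (norm_ei _).le) (fun p hp τ => ?_)
      · rw [hF, mem_erase, mem_filter] at hp
        exact ⟨hp.2.2, hp.1⟩
      · exact continuous_ei.measurable.comp ((hρm p).const_mul w)
      · simp only
        rw [hper p hp τ]
    · have hprod : ∀ τ, ∏ p ∈ F, ei (w * ρ p τ) = ei (w * (rS ρ (NN 1 J) τ - ρ q τ)) := by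
        intro τ
        rw [← ei_sum, ← mul_sum]
        congr 2
        unfold rS
        rw [← add_sum_erase _ _ hqF]
        ring
      have hevF : ∀ᶠ i in ℱ, ∀ p ∈ (range (NN 1 J)).filter Nat.Prime, r i p = ρ p := by
        rw [eventually_all_finset]
        exact fun p _ => hev p
      unfold Sm
      filter_upwards [hevF, hT.eventually (eventually_ge_atTop (1 : ℝ))] with i hi hTi
      have hrS : ∀ τ, rS ρ (NN 1 J) τ = rS (r i) (NN 1 J) τ := by
        intro τ
        unfold rS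
        exact sum_congr rfl fun p hp => by rw [hi p hp]
      have h1 : ∀ τ, ‖g i τ - ∏ p ∈ F, ei (w * ρ p τ)‖ₑ ≤
          ENNReal.ofReal |w| * ‖G i τ - rS (r i) (NN 1 J) τ‖ₑ := by
        intro τ
        rw [hprod, ← ofReal_norm, ← ofReal_norm, ← ENNReal.ofReal_mul (abs_nonneg _)]
        refine ENNReal.ofReal_le_ofReal ((norm_ei_sub _ _).trans (le_of_eq ?_))
        rw [Real.norm_eq_abs, ← abs_mul, hrS]
        congr 1
        ring
      have hT0 : 0 ≤ T i := by linarith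
      calc ∫⁻ τ in Set.Ioc (a i) (a i + T i), ‖g i τ - ∏ p ∈ F, ei (w * ρ p τ)‖ₑ
          ≤ ∫⁻ τ in Set.Ioc (a i) (a i + T i),
              ENNReal.ofReal |w| * ‖G i τ - rS (r i) (NN 1 J) τ‖ₑ := lintegral_mono h1
        _ = ENNReal.ofReal |w| *
              ∫⁻ τ in Set.Ioc (a i) (a i + T i), ‖G i τ - rS (r i) (NN 1 J) τ‖ₑ := by
            rw [lintegral_const_mul' _ _ ENNReal.ofReal_ne_top]
        _ ≤ ENNReal.ofReal |w| * (⌈T i⌉₊ * ENNReal.ofReal (η / (2 * (|w| + 1)))) := by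
            gcongr
            exact lint_window _ _ hT0 (hJ₀ (r i) (c i) (h i) (G i) (hG i) J hJ1)
        _ = ENNReal.ofReal (|w| * (⌈T i⌉₊ * (η / (2 * (|w| + 1))))) := by
            rw [ENNReal.ofReal_mul (abs_nonneg _),
              ENNReal.ofReal_mul (Nat.cast_nonneg _), ENNReal.ofReal_natCast]
        _ ≤ ENNReal.ofReal (η * T i) := by
            refine ENNReal.ofReal_le_ofReal ?_
            have h5 : (⌈T i⌉₊ : ℝ) ≤ 2 * T i := by
              have := Nat.ceil_lt_add_one hT0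
              linarith
            have h6 : |w| * (η / (2 * (|w| + 1))) ≤ η / 2 := by
              rw [← mul_div_assoc, div_le_div_iff₀ (by positivity) (by positivity)]
              nlinarith [abs_nonneg w]
            calc |w| * (⌈T i⌉₊ * (η / (2 * (|w| + 1)))) =
                  ⌈T i⌉₊ * (|w| * (η / (2 * (|w| + 1)))) := by ring
              _ ≤ 2 * T i * (η / 2) := mul_le_mul h5 h6 (by positivity) (by positivity)
              _ = η * T i := by ring
  have hφper : Function.Periodic (fun τ => ei (w * ρ q τ)) (2 * Real.pi / Real.log q) := by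
    intro τ
    simp only
    rw [hper q hq τ]
  have h1 := indep hT hq hcl (fun i τ => (norm_ei _).le) (fun τ => ei (w * ρ q τ))
    (continuous_ei.measurable.comp ((hρm q).const_mul w)) (fun τ => (norm_ei _).le) hφper hη
  filter_upwards [h1] with i hi
  refine le_trans (le_of_eq ?_) hi
  congr 1
  refine intervalIntegral.integral_congr fun τ _ => ?_
  simp only [hg]
  rw [← ei_add]
  congr 1
  ring

/-- **No atoms**, uniformly over windows and families. -/
theorem no_atoms (hT : Tendsto T ℱ atTop) {r : ι → ℕ → ℝ → ℝ} {c : ι → ℕ → ℂ} {C : ℝ}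
    {e : ℕ → ℝ} {E : Finset ℕ} (h : ∀ i, Approx (r i) (c i) C e E) {ρ : ℕ → ℝ → ℝ}
    (hρm : ∀ p, Measurable (ρ p))
    (hper : ∀ p, p.Prime → Function.Periodic (ρ p) (2 * Real.pi / Real.log p))
    (hev : ∀ p, ∀ᶠ i in ℱ, r i p = ρ p) {G : ι → ℝ → ℝ}
    (hG : ∀ i, ∀ᵐ τ : ℝ, Tendsto (fun x => rS (r i) x τ) atTop (𝓝 (G i τ))) {q : ℕ}
    (hq : q.Prime)
    {R : ℝ} (hR : ∀ τ, |ρ q τ| ≤ R) (hna : ∀ x, volume {τ | ρ q τ = x} = 0) {δ : ℝ} (hδ : 0 < δ) :
    ∃ ε : ℝ, 0 < ε ∧ ∀ᶠ i in ℱ, ∀ x : ℝ,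
      volume {τ | τ ∈ Set.Ioc (a i) (a i + T i) ∧ |G i τ - x| < ε} ≤ ENNReal.ofReal (δ * T i) := by
  have hl : 0 < Real.log q := Real.log_pos (by exact_mod_cast hq.one_lt)
  set P := 2 * Real.pi / Real.log q with hPdef
  have hP : 0 < P := by positivity
  have hR0 : 0 ≤ R := (abs_nonneg _).trans (hR 0)
  have hGm : ∀ i, AEMeasurable (G i) := fun i => ae_measurable_of_tendsto (h i).meas (hG i)
  -- the probability space
  set μ : Measure ℝ := (ENNReal.ofReal P)⁻¹ • (volume.restrict (Set.Ioc 0 P)) with hμ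
  have hPr : IsProbabilityMeasure μ := by
    refine ⟨?_⟩
    rw [hμ, Measure.smul_apply, Measure.restrict_apply_univ, Real.volume_Ioc, sub_zero, smul_eq_mul]
    exact ENNReal.inv_mul_cancel (by simpa using hP) ENNReal.ofReal_ne_top
  have hJ : ∀ w : ℝ, ‖∫ τ, ei (w * ρ q τ) ∂μ‖ =
      ‖(∫ τ in (0 : ℝ)..P, ei (w * ρ q τ)) / (P : ℝ)‖ := by
    intro w
    rw [hμ, integral_smul_measure, intervalIntegral.integral_of_le hP.le, norm_smul, norm_div,
      Complex.norm_real, div_eq_inv_mul, ENNReal.toReal_inv, ENNReal.toReal_ofReal hP.le, norm_inv]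
  set s : ℝ := 1 / (R + 1) with hs
  have hs0 : 0 < s := by positivity
  have hsR : s * (2 * R) < 2 * Real.pi := by
    have h1 : s * R ≤ 1 := by
      rw [hs, one_div_mul_eq_div, div_le_one (by positivity)]
      linarith
    have := Real.pi_gt_three
    nlinarith
  have hw := wiener μ (ρ q) (hρm q) hR (fun x => by
    rw [hμ, Measure.smul_apply]
    have : (volume.restrict (Set.Ioc 0 P)) {τ | ρ q τ = x} = 0 :=
      le_antisymm ((Measure.restrict_apply_le _ _).trans (hna x).le) zero_le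
    rw [this, smul_zero]) hs0 hsR
  set δ' : ℝ := min 1 (δ / 8) with hδ'
  have hδ'0 : 0 < δ' := lt_min one_pos (by positivity)
  obtain ⟨n, hn1, hn2⟩ := ((hw.eventually (gt_mem_nhds (show 0 < δ' ^ 2 by positivity))).and
    (eventually_ge_atTop 1)).exists
  have hn0 : (0 : ℝ) < n := by exact_mod_cast hn2
  refine ⟨1 / (n * s), by positivity, ?_⟩
  have hch : ∀ᶠ i in ℱ, ∀ j ∈ range n, ∀ k ∈ range n,
      ‖∫ τ in (a i)..(a i + T i), ei (((j : ℝ) - k) * s * G i τ)‖ ≤
      (‖∫ τ, ei (((j : ℝ) - k) * s * ρ q τ) ∂μ‖ + δ') * T i := by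
    rw [eventually_all_finset]
    intro j _
    rw [eventually_all_finset]
    intro k _
    rw [hJ]
    exact char_bound hT h hρm hper hev hG hq (((j : ℝ) - k) * s) hδ'0
  filter_upwards [hch, hT.eventually (eventually_gt_atTop (0 : ℝ))] with i hTi hT0 x
  -- the sum of the means
  have hsum : ∑ j ∈ range n, ∑ k ∈ range n, ‖∫ τ, ei (((j : ℝ) - k) * s * ρ q τ) ∂μ‖ ≤
      (n : ℝ) ^ 2 * δ' := by
    set a : ℕ × ℕ → ℝ := fun z => ‖∫ τ, ei (((z.1 : ℝ) - z.2) * s * ρ q τ) ∂μ‖ with ha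
    have h1 : ∑ z ∈ range n ×ˢ range n, a z ^ 2 ≤ (n : ℝ) ^ 2 * δ' ^ 2 := by
      rw [sum_product]
      rw [div_lt_iff₀ (by positivity)] at hn1
      simp only [ha]
      nlinarith
    have h2 := sq_sum_le_card_mul_sum_sq (s := range n ×ˢ range n) (f := a)
    rw [card_product, card_range] at h2
    have h3 : (∑ z ∈ range n ×ˢ range n, a z) ^ 2 ≤ ((n : ℝ) ^ 2 * δ') ^ 2 := by
      refine h2.trans ?_
      push_cast
      calc (n : ℝ) * n * ∑ z ∈ range n ×ˢ range n, a z ^ 2 ≤ (n : ℝ) * n * ((n : ℝ) ^ 2 * δ' ^ 2) :=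
            mul_le_mul_of_nonneg_left h1 (by positivity)
        _ = _ := by ring
    have h4 := (abs_le_of_sq_le_sq' h3 (by positivity)).2
    rw [sum_product] at h4
    exact h4
  -- the kernel
  set K : ℝ → ℂ := fun τ => ∑ j ∈ range n, ∑ k ∈ range n, ei (((j : ℝ) - k) * (s * (G i τ - x)))
    with hK
  have hKint : ‖∫ τ in (a i)..(a i + T i), K τ‖ ≤ (n : ℝ) ^ 2 * (2 * δ') * T i := by
    simp only [hK]
    have hi : ∀ w y : ℝ, IntervalIntegrable (fun τ => ei (w * (s * (G i τ - y)))) volume (a i) (a i + T i) := by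
      intro w y
      refine intInt_of_bound ?_ (B := 1) (fun τ => (norm_ei _).le) _ _
      exact continuous_ei.measurable.comp_aemeasurable
        ((((hGm i).sub_const y).const_mul s).const_mul w)
    rw [intervalIntegral.integral_finsetSum]
    · refine (norm_sum_le _ _).trans ?_
      have h1 : ∀ j ∈ range n, ‖∫ τ in (a i)..(a i + T i), ∑ k ∈ range n, ei (((j : ℝ) - k) * (s * (G i τ - x)))‖ ≤
          ∑ k ∈ range n, (‖∫ τ, ei (((j : ℝ) - k) * s * ρ q τ) ∂μ‖ + δ') * T i := by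
        intro j hj
        rw [intervalIntegral.integral_finsetSum fun k _ => hi _ _]
        refine norm_sum_le_of_le _ fun k hk => ?_
        refine le_trans (le_of_eq ?_) (hTi j hj k hk)
        have h2 : ∀ τ, ei (((j : ℝ) - k) * (s * (G i τ - x))) =
            ei (-(((j : ℝ) - k) * s * x)) * ei (((j : ℝ) - k) * s * G i τ) := by
          intro τ
          rw [← ei_add]
          congr 1
          ring
        simp_rw [h2]
        rw [intervalIntegral.integral_const_mul, norm_mul, norm_ei, one_mul]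
      refine (sum_le_sum h1).trans ?_
      have h2 : ∑ j ∈ range n, ∑ k ∈ range n,
          (‖∫ τ, ei (((j : ℝ) - k) * s * ρ q τ) ∂μ‖ + δ') * T i =
          (∑ j ∈ range n, ∑ k ∈ range n, ‖∫ τ, ei (((j : ℝ) - k) * s * ρ q τ) ∂μ‖) * T i +
            (n : ℝ) ^ 2 * δ' * T i := by
        simp_rw [add_mul, sum_add_distrib, ← sum_mul]
        congr 1
        simp only [sum_const, card_range, nsmul_eq_mul]
        ring
      rw [h2]
      nlinarith [mul_le_mul_of_nonneg_right hsum hT0.le]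
    · intro j _
      have h3 := IntervalIntegrable.sum (range n)
        (f := fun (k : ℕ) τ => ei (((j : ℝ) - k) * (s * (G i τ - x)))) fun k _ => hi _ _
      refine h3.congr (fun τ _ => ?_)
      rw [Finset.sum_apply]
  have hKval : ∀ τ, K τ = ((‖∑ j ∈ range n, ei (j * (s * (G i τ - x)))‖ ^ 2 : ℝ) : ℂ) := fun τ =>
    double_sum n _
  set k : ℝ → ℝ := fun τ => ‖∑ j ∈ range n, ei (j * (s * (G i τ - x)))‖ ^ 2 with hk
  have hk0 : ∀ τ, 0 ≤ k τ := fun τ => by simp only [hk]; positivity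
  have hkm : AEMeasurable k := by
    simp only [hk]
    refine (AEMeasurable.norm ?_).pow_const 2
    exact Finset.aemeasurable_fun_sum _ fun j _ => continuous_ei.measurable.comp_aemeasurable
        ((((hGm i).sub_const x).const_mul s).const_mul _)
  have hkb : ∀ τ, k τ ≤ (n : ℝ) ^ 2 := by
    intro τ
    simp only [hk]
    refine pow_le_pow_left₀ (norm_nonneg _) ?_ 2
    refine (norm_sum_le _ _).trans ?_
    simp [norm_ei]
  have hkint : IntegrableOn k (Set.Ioc (a i) (a i + T i)) := by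
    refine Measure.integrableOn_of_bounded (M := (n : ℝ) ^ 2) (by simp) hkm.aestronglyMeasurable
      (ae_of_all _ fun τ => ?_)
    rw [Real.norm_of_nonneg (hk0 τ)]
    exact hkb τ
  have hI : ∫ τ in Set.Ioc (a i) (a i + T i), k τ ≤ (n : ℝ) ^ 2 * (2 * δ') * T i := by
    have h1 : ∫ τ in (a i)..(a i + T i), K τ = ((∫ τ in Set.Ioc (a i) (a i + T i), k τ : ℝ) : ℂ) := by
      rw [intervalIntegral.integral_of_le (by linarith), ← integral_complex_ofReal]
      exact integral_congr_ae (ae_of_all _ hKval)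
    rw [h1, Complex.norm_real] at hKint
    exact (le_abs_self _).trans hKint
  -- Chebyshev's inequality
  have hsub : {τ | τ ∈ Set.Ioc (a i) (a i + T i) ∧ |G i τ - x| < 1 / (n * s)} ⊆
      {τ | ENNReal.ofReal ((n : ℝ) ^ 2 / 4) ≤ ENNReal.ofReal (k τ)} ∩ Set.Ioc (a i) (a i + T i) := by
    rintro τ ⟨h1, h2⟩
    refine ⟨?_, h1⟩
    refine ENNReal.ofReal_le_ofReal ?_
    have h3 : (n : ℝ) * |s * (G i τ - x)| ≤ 1 := by
      rw [abs_mul, abs_of_pos hs0, ← mul_assoc]
      rw [lt_div_iff₀ (by positivity)] at h2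
      linarith
    have h4 := sum_ei_ge h3
    simp only [hk]
    calc (n : ℝ) ^ 2 / 4 = ((n : ℝ) / 2) ^ 2 := by ring
      _ ≤ _ := pow_le_pow_left₀ (by positivity) h4 2
  have hcheb : ENNReal.ofReal ((n : ℝ) ^ 2 / 4) *
      volume {τ | τ ∈ Set.Ioc (a i) (a i + T i) ∧ |G i τ - x| < 1 / (n * s)} ≤
      ENNReal.ofReal ((n : ℝ) ^ 2 * (2 * δ') * T i) := by
    have h1 : volume {τ | τ ∈ Set.Ioc (a i) (a i + T i) ∧ |G i τ - x| < 1 / (n * s)} ≤
        (volume.restrict (Set.Ioc (a i) (a i + T i))) {τ | ENNReal.ofReal ((n : ℝ) ^ 2 / 4) ≤ ENNReal.ofReal (k τ)} := by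
      refine (measure_mono hsub).trans ?_
      exact Measure.le_restrict_apply _ _
    calc ENNReal.ofReal ((n : ℝ) ^ 2 / 4) *
          volume {τ | τ ∈ Set.Ioc (a i) (a i + T i) ∧ |G i τ - x| < 1 / (n * s)}
        ≤ ENNReal.ofReal ((n : ℝ) ^ 2 / 4) * (volume.restrict (Set.Ioc (a i) (a i + T i)))
            {τ | ENNReal.ofReal ((n : ℝ) ^ 2 / 4) ≤ ENNReal.ofReal (k τ)} := by gcongr
      _ ≤ ∫⁻ τ in Set.Ioc (a i) (a i + T i), ENNReal.ofReal (k τ) :=
          mul_meas_ge_le_lintegral₀ hkm.restrict.ennreal_ofReal _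
      _ = ENNReal.ofReal (∫ τ in Set.Ioc (a i) (a i + T i), k τ) :=
          (ofReal_integral_eq_lintegral_ofReal hkint (ae_of_all _ hk0)).symm
      _ ≤ _ := ENNReal.ofReal_le_ofReal hI
  have hfin : volume {τ | τ ∈ Set.Ioc (a i) (a i + T i) ∧ |G i τ - x| < 1 / (n * s)} ≤
      (ENNReal.ofReal ((n : ℝ) ^ 2 / 4))⁻¹ * ENNReal.ofReal ((n : ℝ) ^ 2 * (2 * δ') * T i) := by
    have hne : ENNReal.ofReal ((n : ℝ) ^ 2 / 4) ≠ 0 := by
      rw [Ne, ENNReal.ofReal_eq_zero, not_le]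
      positivity
    calc volume {τ | τ ∈ Set.Ioc (a i) (a i + T i) ∧ |G i τ - x| < 1 / (n * s)}
        = (ENNReal.ofReal ((n : ℝ) ^ 2 / 4))⁻¹ * (ENNReal.ofReal ((n : ℝ) ^ 2 / 4) *
            volume {τ | τ ∈ Set.Ioc (a i) (a i + T i) ∧ |G i τ - x| < 1 / (n * s)}) := by
          rw [← mul_assoc, ENNReal.inv_mul_cancel hne ENNReal.ofReal_ne_top, one_mul]
      _ ≤ _ := by gcongr
  refine hfin.trans ?_
  rw [← ENNReal.ofReal_inv_of_pos (by positivity), ← ENNReal.ofReal_mul (by positivity)]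
  refine ENNReal.ofReal_le_ofReal ?_
  have h5 : ((n : ℝ) ^ 2 / 4)⁻¹ * ((n : ℝ) ^ 2 * (2 * δ') * T i) = 8 * δ' * T i := by
    field_simp
    ring
  rw [h5]
  refine mul_le_mul_of_nonneg_right ?_ hT0.le
  have : δ' ≤ δ / 8 := min_le_right _ _
  linarith

end Pool.Agent.Y774.FP
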