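import Pool.Agent.Y774.FP.EC

/-!
# Elliptic curves: the two theorems
-/

set_option autoImplicit false

namespace Pool.Agent.Y774.FP

open Filter Topology MeasureTheory Finset Polynomial NumberField IsDedekindDomain
  Pool.Agent.H921R2.TatePole Pool.Agent.TH958.BV Pool.Agent.Y774.MD

section
variable {K : Type} [Field K] [NumberField K]

lemma mem_iff_below {p : ℕ} (hp : p.Prime) (v : HeightOneSpectrum (𝓞 K)) :
    (p : 𝓞 K) ∈ v.asIdeal ↔ below v = ⟨p, hp⟩ := by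
  obtain ⟨-, -, hm⟩ := nm_eq v
  constructor
  · intro h
    by_contra hne
    have hne' : (below v : ℕ) ≠ p := fun h' => hne (Subtype.ext h')
    have hco : Nat.Coprime (below v : ℕ) p := (Nat.coprime_primes (below v).2 hp).2 hne'
    obtain ⟨a, b, hab⟩ := Nat.isCoprime_iff_coprime.2 hco
    apply v.isPrime.ne_top
    rw [Ideal.eq_top_iff_one]
    have h4 : (1 : 𝓞 K) = (a : 𝓞 K) * ((below v : ℕ) : 𝓞 K) + (b : 𝓞 K) * ((p : ℕ) : 𝓞 K) := by
      have := congrArg (Int.cast : ℤ → 𝓞 K) hab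
      push_cast at this
      exact this.symm
    rw [h4]
    exact v.asIdeal.add_mem (v.asIdeal.mul_mem_left _ hm) (v.asIdeal.mul_mem_left _ h)
  · intro h
    rw [h] at hm
    exact hm

/-- The product of the Euler factors above `p`. -/
lemma finprod_factor (B : HeightOneSpectrum (𝓞 K) → ℂ[X]) {p : ℕ} (hp : p.Prime) (s : ℂ) :
    ∏ᶠ v ∈ {v : HeightOneSpectrum (𝓞 K) | (p : 𝓞 K) ∈ v.asIdeal}, localFactor B v s =
      fac (GP B 1) p (s - 1 / 2) := by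
  rw [fac_GP B 1 hp]
  have h1 : {v : HeightOneSpectrum (𝓞 K) | (p : 𝓞 K) ∈ v.asIdeal} =
      {v : HeightOneSpectrum (𝓞 K) | below v = ⟨p, hp⟩} := by
    ext v
    exact mem_iff_below hp v
  have h2 : ∀ v : HeightOneSpectrum (𝓞 K), localFactor B v ((((1 : ℝ) / 2 : ℝ) : ℂ) + (s - 1 / 2)) =
      localFactor B v s := by
    intro v
    congr 1
    push_cast
    ring
  simp_rw [h2]
  rw [h1, ← finprod_set_coe_eq_finprod_mem]
  exact finprod_eq_prod_of_fintype (fun v : {v : HeightOneSpectrum (𝓞 K) // below v = ⟨p, hp⟩} =>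
    localFactor B v.1 s)

end

lemma norm_pow_le {q : ℕ} (hq : q.Prime) {s : ℂ} (hs : 1 ≤ s.re) : ‖(q : ℂ) ^ (-s)‖ ≤ 1 / q := by
  have hq1 : (1 : ℝ) ≤ q := by exact_mod_cast hq.one_le
  rw [Complex.norm_natCast_cpow_of_pos hq.pos, one_div, ← Real.rpow_neg_one]
  refine Real.rpow_le_rpow_of_exponent_le hq1 ?_
  rw [Complex.neg_re]
  linarith

section
variable {κ : Type} [Fintype κ] {Q : κ → ℕ → ℂ[X]} {m : κ → ℝ}

/-- The relation between the Euler factors. -/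
lemma relation_of_HH {q : ℕ} (hq : q.Prime) (hg : ∀ k, GoodAt (Q k q) q)
    (h : ∀ z : ℂ, ‖z‖ ≤ 1 / q → HH Q m (fun _ => 0) q z = 0) {s : ℂ} (hs : 1 ≤ s.re) :
    ∏ k, ‖fac (Q k) q s‖ ^ m k = 1 := by
  have h1 := h _ (norm_pow_le hq hs)
  unfold HH at h1
  have h2 : ∀ k, ‖fac (Q k) q s‖ ^ m k = Real.exp (m k * (LG (inv (Q k q)) ((q : ℂ) ^ (-s))).re) := by
    intro k
    rw [(hg k).fac_eq hq hs, Complex.norm_exp, ← Real.exp_mul, mul_comm]
  simp_rw [h2]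
  rw [← Real.exp_sum, Real.exp_eq_one_iff]
  have h3 := congrArg Complex.re h1
  rw [Complex.re_sum, Complex.zero_re] at h3
  rw [← h3]
  refine sum_congr rfl fun k _ => ?_
  rw [Complex.re_ofReal_mul]
  have h4 : rot q 0 = 1 := by simp [rot]
  rw [h4, one_mul]

/-- The converse. -/
lemma rf_of_relation {q : ℕ} (hq : q.Prime) (hg : ∀ k, GoodAt (Q k q) q)
    (h : ∀ s : ℂ, 1 ≤ s.re → ∏ k, ‖fac (Q k) q s‖ ^ m k = 1) (τ : ℝ) :
    rf Q m (fun _ => 0) q τ = 0 := by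
  unfold rf
  rw [if_pos hq]
  have hs : 1 ≤ (1 + (τ : ℂ) * Complex.I).re := by simp
  have h1 := h _ hs
  have hpos : ∀ k, 0 < ‖fac (Q k) q (1 + (τ : ℂ) * Complex.I)‖ := by
    intro k
    rw [(hg k).fac_eq hq hs]
    exact norm_pos_iff.2 (Complex.exp_ne_zero _)
  have h2 := congrArg Real.log h1
  rw [Real.log_one, Real.log_prod fun k _ => (Real.rpow_pos_of_pos (hpos k) _).ne'] at h2
  refine Eq.trans (sum_congr rfl fun k _ => ?_) h2
  rw [Real.log_rpow (hpos k)]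
  unfold rl
  rw [add_zero]

end

/-- Equality of the Euler factors. -/
lemma poly_eq {P P' : ℂ[X]} {q : ℕ} (hq : q.Prime) (hP : GoodAt P q) (hP' : GoodAt P' q)
    (h : ∀ z : ℂ, ‖z‖ ≤ 1 / q → LG (inv P) z = LG (inv P') z) : P = P' := by
  have hq0 : (0 : ℝ) < q := by exact_mod_cast hq.pos
  have hev : ∀ P : ℂ[X], GoodAt P q → ∀ z : ℂ, ‖z‖ ≤ 1 / q →
      P.eval z = (Complex.exp (LG (inv P) z))⁻¹ := by
    intro P hP z hz
    obtain ⟨b, hb1, hb2⟩ := hP.radius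
    have hb0 : 0 < b := lt_trans (by positivity) hb1
    rw [eval_inv hP.1, exp_LG, inv_inv]
    intro a ha
    refine Complex.slitPlane_ne_zero (one_sub_slit ?_)
    rw [norm_mul]
    calc ‖a‖ * ‖z‖ ≤ b⁻¹ * (1 / q) :=
          mul_le_mul (norm_inv_le hP.1 hb0 hb2 a ha) hz (norm_nonneg _) (by positivity)
      _ < b⁻¹ * b := mul_lt_mul_of_pos_left hb1 (by positivity)
      _ = 1 := inv_mul_cancel₀ hb0.ne'
  refine Polynomial.eq_of_infinite_eval_eq P P' ?_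
  have hinf : ((fun x : ℝ => (x : ℂ)) '' Set.Ioo 0 (1 / (q : ℝ))).Infinite :=
    (Set.Ioo_infinite (by positivity)).image Complex.ofReal_injective.injOn
  refine hinf.mono ?_
  rintro _ ⟨x, hx, rfl⟩
  have hx1 : ‖(x : ℂ)‖ ≤ 1 / q := by
    rw [Complex.norm_real, Real.norm_of_nonneg hx.1.le]
    exact hx.2.le
  show P.eval (x : ℂ) = P'.eval (x : ℂ)
  rw [hev P hP _ hx1, hev P' hP' _ hx1, h _ hx1]

/-- Chebyshev's inequality. -/
lemma vol_le_of_lint {f : ℝ → ℝ} {a ε : ℝ} (hf : AEMeasurable f) (hε : 0 < ε)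
    (h : ∫⁻ τ in Set.Ioc a (a + 1), ‖f τ‖ₑ ≤ ENNReal.ofReal (ε * ε)) :
    volume {τ | τ ∈ Set.Ioc a (a + 1) ∧ ε ≤ |f τ|} ≤ ENNReal.ofReal ε := by
  have h1 : volume {τ | τ ∈ Set.Ioc a (a + 1) ∧ ε ≤ |f τ|} ≤
      (volume.restrict (Set.Ioc a (a + 1))) {τ | ENNReal.ofReal ε ≤ ‖f τ‖ₑ} := by
    refine le_trans (measure_mono ?_) (Measure.le_restrict_apply _ _)
    rintro τ ⟨h2, h3⟩
    refine ⟨?_, h2⟩
    show ENNReal.ofReal ε ≤ ‖f τ‖ₑ
    rw [← ofReal_norm, Real.norm_eq_abs]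
    exact ENNReal.ofReal_le_ofReal h3
  have h2 := (mul_meas_ge_le_lintegral₀ (μ := volume.restrict (Set.Ioc a (a + 1)))
    hf.restrict.enorm (ENNReal.ofReal ε)).trans h
  have hε' : ENNReal.ofReal ε ≠ 0 := by
    rw [Ne, ENNReal.ofReal_eq_zero, not_le]
    exact hε
  rw [ENNReal.ofReal_mul hε.le] at h2
  exact h1.trans ((ENNReal.mul_le_mul_iff_right hε' ENNReal.ofReal_ne_top).1 h2)

/-- Minimum over the primes below `x`. -/
lemma unif {F : ℕ → ℝ → ℝ → Prop} (hF : ∀ p ε ε' T T', F p ε T → ε' ≤ ε → T ≤ T' → F p ε' T')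
    (h : ∀ p, p.Prime → ∃ ε : ℝ, 0 < ε ∧ ∃ T : ℝ, 0 < T ∧ F p ε T) (x : ℕ) :
    ∃ ε : ℝ, 0 < ε ∧ ∃ T : ℝ, 0 < T ∧ ∀ p, p.Prime → p < x → F p ε T := by
  induction x with
  | zero => exact ⟨1, one_pos, 1, one_pos, fun p _ hp => absurd hp (Nat.not_lt_zero p)⟩
  | succ x ih =>
    obtain ⟨ε, hε, T, hT, h1⟩ := ih
    by_cases hx : x.Prime
    · obtain ⟨ε', hε', T', hT', h2⟩ := h x hx
      refine ⟨min ε ε', lt_min hε hε', max T T', lt_max_of_lt_left hT, fun p hp hpx => ?_⟩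
      rcases Nat.lt_succ_iff_lt_or_eq.1 hpx with h3 | h3
      · exact hF p _ _ _ _ (h1 p hp h3) (min_le_left _ _) (le_max_left _ _)
      · subst h3
        exact hF p _ _ _ _ h2 (min_le_right _ _) (le_max_right _ _)
    · refine ⟨ε, hε, T, hT, fun p hp hpx => ?_⟩
      rcases Nat.lt_succ_iff_lt_or_eq.1 hpx with h3 | h3
      · exact h1 p hp h3
      · subst h3
        exact absurd hp hx

end Pool.Agent.Y774.FP
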