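import Pool.Agent.Y774.FP.Conc
import Pool.Agent.Y774.MD.Dicho

/-!
# Finite precision and bounded windows suffice
-/

set_option autoImplicit false

namespace Pool.Agent.Y774.FP

open Filter Topology MeasureTheory Finset Pool.Agent.W350.Edge Pool.Agent.Y774.MD Polynomial
open scoped ENNReal

section

variable {κ : Type} [Fintype κ]

/-- Families of Euler products with uniform bounds. -/
def InClass (D : κ → ℕ) (θ C : κ → ℝ) (E : Finset ℕ) (S : κ → ℕ → Set ℂ[X])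
    (Q : κ → ℕ → ℂ[X]) : Prop :=
  (∀ k, IsEuler (Q k) (D k) (θ k) (C k) E) ∧ ∀ k p, p.Prime → Q k p ∈ S k p

lemma rf_congr {Q Q' : κ → ℕ → ℂ[X]} (m t : κ → ℝ) {p : ℕ} (h : ∀ k, Q k p = Q' k p) :
    rf Q m t p = rf Q' m t p := by
  funext τ
  unfold rf rl fac
  simp only [h]

lemma HH_congr {Q Q' : κ → ℕ → ℂ[X]} (m t : κ → ℝ) {p : ℕ} (h : ∀ k, Q k p = Q' k p) (z : ℂ) :
    HH Q m t p z = HH Q' m t p z := by
  unfold HH
  simp only [h]

/-- **Finite precision.**  If the combination of the Euler factors at `q` is not trivial, then the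
values are not concentrated in any window of length at least `T₀`; `ε` and `T₀` depend only on the
class. -/
theorem finite_precision (m t : κ → ℝ) {D : κ → ℕ} {θ C : κ → ℝ} {E : Finset ℕ}
    {S : κ → ℕ → Set ℂ[X]} (hS : ∀ k p, (S k p).Finite) {q : ℕ} (hq : q.Prime) {δ : ℝ}
    (hδ : 0 < δ) :
    ∃ ε : ℝ, 0 < ε ∧ ∃ T₀ : ℝ, 0 < T₀ ∧ ∀ Q : κ → ℕ → ℂ[X], InClass D θ C E S Q →
      (∀ k, GoodAt (Q k q) q) → (∃ z : ℂ, ‖z‖ ≤ 1 / q ∧ HH Q m t q z ≠ 0) →
      ∀ a T x : ℝ, T₀ ≤ T →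
        volume {τ | τ ∈ Set.Ioc a (a + T) ∧ |Gf Q m t τ - x| < ε} ≤ ENNReal.ofReal (δ * T) := by
  classical
  by_contra hcon
  push Not at hcon
  have hcon' : ∀ j : ℕ, ∃ Q : κ → ℕ → ℂ[X], InClass D θ C E S Q ∧
      (∀ k, GoodAt (Q k q) q) ∧ (∃ z : ℂ, ‖z‖ ≤ 1 / q ∧ HH Q m t q z ≠ 0) ∧
      ∃ a T x : ℝ, (j : ℝ) + 1 ≤ T ∧ ENNReal.ofReal (δ * T) <
        volume {τ | τ ∈ Set.Ioc a (a + T) ∧ |Gf Q m t τ - x| < 1 / ((j : ℝ) + 1)} := by
    intro j
    obtain ⟨Q, h1, h2, h3, a, T, x, h4, h5⟩ := hcon (1 / ((j : ℝ) + 1)) (by positivity)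
      ((j : ℝ) + 1) (by positivity)
    exact ⟨Q, h1, h2, h3, a, T, x, h4, h5⟩
  choose Q hQ hgood hz a T x hT hvol using hcon'
  set ℱ : Filter ℕ := ((hyperfilter ℕ : Ultrafilter ℕ) : Filter ℕ) with hℱ
  have hle : ℱ ≤ atTop := Nat.hyperfilter_le_atTop
  have hTt : Tendsto T ℱ atTop := by
    have h1 : Tendsto (fun j : ℕ => (j : ℝ) + 1) atTop atTop :=
      tendsto_atTop_add_const_right _ _ tendsto_natCast_atTop_atTop
    exact (tendsto_atTop_mono hT h1).mono_left hle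
  -- the limit of the Euler factors
  have hlim : ∀ k p, p.Prime → ∃ s ∈ S k p, ∀ᶠ j in ℱ, Q j k p = s := by
    intro k p hp
    have h1 : ∀ᶠ j in ℱ, ∃ s ∈ S k p, Q j k p = s :=
      Eventually.of_forall fun j => ⟨_, (hQ j).2 k p hp, rfl⟩
    exact (Ultrafilter.eventually_exists_mem_iff (hS k p)).1 h1
  choose! Pinf hPiS hPi using hlim
  have hev : ∀ p, p.Prime → ∀ᶠ j in ℱ, ∀ k, Q j k p = Pinf k p := by
    intro p hp
    rw [eventually_all]
    exact fun k => hPi k p hp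
  have hρ : ∀ p, ∀ᶠ j in ℱ, rf (Q j) m t p = rf Pinf m t p := by
    intro p
    by_cases hp : p.Prime
    · filter_upwards [hev p hp] with j hj
      exact rf_congr m t hj
    · refine Eventually.of_forall fun j => ?_
      funext τ
      unfold rf
      rw [if_neg hp, if_neg hp]
  obtain ⟨j₀, hj₀⟩ := (hev q hq).exists
  have hgoodi : ∀ k, GoodAt (Pinf k q) q := by
    intro k
    rw [← hj₀ k]
    exact hgood j₀ k
  have hna : ∀ y, volume {τ | rf Pinf m t q τ = y} = 0 := by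
    by_contra h
    push Not at h
    obtain ⟨z, hz1, hz2⟩ := hz j₀
    refine hz2 ?_
    rw [HH_congr m t hj₀]
    exact key hq hgoodi h z hz1
  obtain ⟨R, hR⟩ := rf_bounded (m := m) (t := t) hq hgoodi
  obtain ⟨ε, hε, h1⟩ := no_atoms (a := a) hTt (fun j => rf_approx (m := m) (t := t) (hQ j).1)
    (rf_measurable Pinf m t) (fun p hp => rf_periodic Pinf m t hp) hρ
    (fun j => rf_tendsto (m := m) (t := t) (hQ j).1) hq hR hna hδ
  have h2 : ∀ᶠ j : ℕ in ℱ, 1 / ((j : ℝ) + 1) < ε := by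
    have h3 : Tendsto (fun j : ℕ => 1 / ((j : ℝ) + 1)) atTop (𝓝 0) :=
      tendsto_one_div_add_atTop_nhds_zero_nat
    exact hle (h3.eventually (gt_mem_nhds hε))
  obtain ⟨j, hj1, hj2⟩ := (h1.and h2).exists
  have h3 := hvol j
  refine absurd (h3.trans_le ?_) (lt_irrefl _)
  refine (measure_mono ?_).trans (hj1 (x j))
  rintro τ ⟨h4, h5⟩
  exact ⟨h4, h5.trans hj2⟩

/-- **Closeness.**  The values are small in mean over all unit intervals if the combinations of the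
Euler factors at the small primes are trivial. -/
theorem closeness (m t : κ → ℝ) (D : κ → ℕ) (θ C : κ → ℝ) (E : Finset ℕ) {η : ℝ} (hη : 0 < η) :
    ∃ X : ℕ, ∀ Q : κ → ℕ → ℂ[X], (∀ k, IsEuler (Q k) (D k) (θ k) (C k) E) →
      (∀ p, p.Prime → p < X → ∀ τ, rf Q m t p τ = 0) →
      ∀ a : ℝ, ∫⁻ τ in Set.Ioc a (a + 1), ‖Gf Q m t τ‖ₑ ≤ ENNReal.ofReal η := by
  obtain ⟨J₀, hJ₀⟩ := tail_unif (∑ k, ‖(m k : ℂ)‖ * (2 * Real.exp 1 * C k + CC))
    (fun p => ∑ k, |m k| * (2 * D k * (p : ℝ) ^ (2 * θ k - 2))) E hη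
  refine ⟨NN 1 J₀, fun Q hQ hrel a => ?_⟩
  have h1 := hJ₀ _ _ (rf_approx (m := m) (t := t) hQ) _ (rf_tendsto (m := m) (t := t) hQ) J₀ le_rfl a
  refine le_trans (le_of_eq (lintegral_congr fun τ => ?_)) h1
  have h2 : rS (rf Q m t) (NN 1 J₀) τ = 0 := by
    unfold rS
    refine sum_eq_zero fun p hp => ?_
    rw [mem_filter, mem_range] at hp
    exact hrel p hp.2 hp.1 τ
  rw [h2, sub_zero]

end

end Pool.Agent.Y774.FP
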