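import Pool.Agent.Y774.FP.EC2

/-!
# Main theorems for families of curves
-/

set_option autoImplicit false

namespace Pool.Agent.Y774.FP

open Filter Topology MeasureTheory Finset Polynomial NumberField IsDedekindDomain
  Pool.Agent.H921R2.TatePole Pool.Agent.TH958.BV Pool.Agent.Y774.MD
open scoped ENNReal

/-- The Euler products over `ℚ` coming from elliptic curves over number fields of degree `≤ n`. -/
def Adm (n : ℕ) (P : ℕ → ℂ[X]) : Prop :=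
  ∃ (K : Type) (_ : Field K) (_ : NumberField K) (W : HeightOneSpectrum (𝓞 K) → WeierstrassCurve (𝓞 K)),
    Module.finrank ℚ K ≤ n ∧ P = GP (BW W) 1

lemma Adm.good {n : ℕ} {P : ℕ → ℂ[X]} (h : Adm n P) {q : ℕ} (hq : q.Prime) : GoodAt (P q) q := by
  obtain ⟨K, _, _, W, -, rfl⟩ := h
  exact BW_goodAt W hq

lemma Adm.mem {n : ℕ} {P : ℕ → ℂ[X]} (h : Adm n P) {q : ℕ} (hq : q.Prime) : P q ∈ SS n q := by
  obtain ⟨K, _, _, W, hn, rfl⟩ := h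
  exact GP_mem_SS W hn hq

lemma adm_euler (n : ℕ) : ∃ C : ℝ, ∀ P : ℕ → ℂ[X], Adm n P → IsEuler P (2 * n * n) 0 C {2, 3} := by
  obtain ⟨C, hC⟩ := euler n
  refine ⟨C, ?_⟩
  rintro P ⟨K, _, _, W, hn, rfl⟩
  exact hC K hn W

/-- The form in the logarithms. -/
noncomputable def fm {κ : Type} [Fintype κ] (Q : κ → ℕ → ℂ[X]) (m : κ → ℝ) (τ : ℝ) : ℝ :=
  ∑ k, m k * Real.log (eabs (Q k) τ)

lemma fm_eq {κ : Type} [Fintype κ] (Q : κ → ℕ → ℂ[X]) (m : κ → ℝ) :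
    fm Q m = Gf Q m (fun _ => 0) := by
  funext τ
  unfold fm Gf
  simp only [add_zero]

theorem close (n : ℕ) {κ : Type} [Fintype κ] (m : κ → ℝ) {ε : ℝ} (hε : 0 < ε) :
    ∃ x : ℕ, ∀ Q : κ → ℕ → ℂ[X], (∀ k, Adm n (Q k)) →
      (∀ p, p.Prime → p < x → ∀ s : ℂ, 1 ≤ s.re → ∏ k, ‖fac (Q k) p s‖ ^ m k = 1) →
      ∀ a : ℝ, volume {τ | τ ∈ Set.Ioc a (a + 1) ∧ ε ≤ |fm Q m τ|} ≤ ENNReal.ofReal ε := by
  obtain ⟨C, hC⟩ := adm_euler n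
  obtain ⟨x, hx⟩ := closeness m (fun _ => 0) (fun _ => 2 * n * n) (fun _ => 0) (fun _ => C) {2, 3}
    (show 0 < ε * ε by positivity)
  refine ⟨x, fun Q hQ hrel a => ?_⟩
  have h1 : ∀ k, IsEuler (Q k) (2 * n * n) 0 C {2, 3} := fun k => hC _ (hQ k)
  have hm : AEMeasurable (Gf Q m (fun _ => 0)) :=
    ae_measurable_of_tendsto (rf_measurable Q m (fun _ => 0)) (rf_tendsto h1)
  rw [fm_eq]
  refine vol_le_of_lint hm hε (hx Q h1 (fun p hp hpx τ => ?_) a)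
  exact rf_of_relation hp (fun k => (hQ k).good hp) (hrel p hp hpx) τ

theorem precise (n : ℕ) {κ : Type} [Fintype κ] (m : κ → ℝ) (x : ℕ) {δ : ℝ} (hδ : 0 < δ) :
    ∃ ε : ℝ, 0 < ε ∧ ∃ T₀ : ℝ, 0 < T₀ ∧ ∀ p, p.Prime → p < x → ∀ Q : κ → ℕ → ℂ[X],
      (∀ k, Adm n (Q k)) → ∀ a T y : ℝ, T₀ ≤ T →
      ENNReal.ofReal (δ * T) ≤ volume {τ | τ ∈ Set.Ioc a (a + T) ∧ |fm Q m τ - y| < ε} →
      ∀ z : ℂ, ‖z‖ ≤ 1 / p → HH Q m (fun _ => 0) p z = 0 := by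
  obtain ⟨C, hC⟩ := adm_euler n
  refine unif (F := fun p ε T₀ => ∀ Q : κ → ℕ → ℂ[X],
      (∀ k, Adm n (Q k)) → ∀ a T y : ℝ, T₀ ≤ T →
      ENNReal.ofReal (δ * T) ≤ volume {τ | τ ∈ Set.Ioc a (a + T) ∧ |fm Q m τ - y| < ε} →
      ∀ z : ℂ, ‖z‖ ≤ 1 / p → HH Q m (fun _ => 0) p z = 0) ?_ ?_ x
  · intro p ε ε' T T' h hε hT Q hQ a S y hS hvol
    refine h Q hQ a S y (hT.trans hS) (hvol.trans (measure_mono ?_))
    rintro τ ⟨h1, h2⟩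
    exact ⟨h1, h2.trans_le hε⟩
  · intro p hp
    obtain ⟨ε, hε, T₀, hT₀, h⟩ := finite_precision m (fun _ => 0) (D := fun _ => 2 * n * n)
      (θ := fun _ => 0) (C := fun _ => C) (E := {2, 3}) (S := fun _ => SS n)
      (fun _ p => SS_finite n p) hp (show 0 < δ / 2 by positivity)
    refine ⟨ε, hε, T₀, hT₀, fun Q hQ a T y hT hvol => ?_⟩
    by_contra hcon
    push Not at hcon
    have h1 := h Q ⟨fun k => hC _ (hQ k), fun k p hp => (hQ k).mem hp⟩ (fun k => (hQ k).good hp)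
      hcon a T y hT
    rw [fm_eq] at hvol
    have h2 := hvol.trans h1
    rw [ENNReal.ofReal_le_ofReal_iff (by nlinarith)] at h2
    nlinarith

end Pool.Agent.Y774.FP
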