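import Pool.Agent.Y774.MD.Conc

/-!
# Mean values over windows, uniformly in the position of the window
-/

set_option autoImplicit false

namespace Pool.Agent.Y774.FP

open Filter Topology MeasureTheory Finset Pool.Agent.W350.Edge Pool.Agent.Y774.MD
open scoped ENNReal

/-- The mean value of a nontrivial character over windows. -/
lemma mean_exp {ι : Type} {ℱ : Filter ι} {a T : ι → ℝ} (hT : Tendsto T ℱ atTop) {μ : ℝ}
    (hμ : μ ≠ 0) :
    Tendsto (fun i => (∫ τ in (a i)..(a i + T i), Complex.exp ((τ * μ : ℝ) * Complex.I)) / T i) ℱ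
      (𝓝 0) := by
  have hc : (μ * Complex.I : ℂ) ≠ 0 := mul_ne_zero (by exact_mod_cast hμ) Complex.I_ne_zero
  have h1 : ∀ i, ‖∫ τ in (a i)..(a i + T i), Complex.exp ((τ * μ : ℝ) * Complex.I)‖ ≤ 2 / |μ| := by
    intro i
    have h2 : ∀ τ : ℝ, Complex.exp ((τ * μ : ℝ) * Complex.I) =
        Complex.exp ((μ * Complex.I) * τ) := by
      intro τ
      congr 1
      push_cast
      ring
    simp_rw [h2]
    rw [integral_exp_mul_complex hc, norm_div, norm_mul, Complex.norm_I, mul_one,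
      Complex.norm_real, Real.norm_eq_abs]
    refine div_le_div_of_nonneg_right ?_ (abs_nonneg _)
    refine (norm_sub_le _ _).trans ?_
    rw [Complex.norm_exp, Complex.norm_exp]
    have e1 : ∀ y : ℝ, (μ * Complex.I * (y : ℂ)).re = 0 := by
      intro y
      have : (μ * Complex.I * (y : ℂ)) = ((μ * y : ℝ) : ℂ) * Complex.I := by
        push_cast
        ring
      rw [this, Complex.mul_I_re, Complex.ofReal_im, neg_zero]
    rw [e1, e1, Real.exp_zero]
    norm_num
  refine squeeze_zero_norm (a := fun i => (2 / |μ|) / |T i|) (fun i => ?_) ?_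
  · rw [norm_div, Complex.norm_real, Real.norm_eq_abs]
    exact div_le_div_of_nonneg_right (h1 i) (abs_nonneg _)
  · exact Tendsto.div_atTop tendsto_const_nhds (tendsto_abs_atTop_atTop.comp hT)

/-- Orthogonality. -/
lemma mean_ek_mul {ι : Type} {ℱ : Filter ι} {a T : ι → ℝ} (hT : Tendsto T ℱ atTop) {q : ℕ}
    (hq : q.Prime) {k : ℤ} (hk : k ≠ 0) {f : ℝ → ℂ} (hf : f ∈ TP q) :
    Tendsto (fun i => (∫ τ in (a i)..(a i + T i), ek q k τ * f τ) / T i) ℱ (𝓝 0) := by
  have hc : ∀ g : ℝ → ℂ, Continuous g → ∀ i,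
      IntervalIntegrable (fun τ => ek q k τ * g τ) volume (a i) (a i + T i) := fun g hg i =>
    ((continuous_ek q k).mul hg).intervalIntegrable _ _
  unfold TP at hf
  induction hf using Submodule.span_induction with
  | mem f hf =>
    obtain ⟨b, d, ha, hb, hqa, hqb, rfl⟩ := hf
    refine (mean_exp (a := a) hT (log_ne hq hk ha hb hqa hqb)).congr fun i => ?_
    congr 1
    refine intervalIntegral.integral_congr fun τ _ => ?_
    simp only [ek, chi]
    rw [← Complex.exp_add, ← add_mul, ← Complex.ofReal_add]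
    congr 3
    ring
  | zero =>
    refine tendsto_const_nhds.congr fun i => ?_
    simp
  | add f g hf' hg' hf hg =>
    have h1 := hf.add hg
    rw [add_zero] at h1
    refine h1.congr fun i => ?_
    rw [← add_div, ← intervalIntegral.integral_add (hc f (TP_continuous hf') i)
      (hc g (TP_continuous hg') i)]
    congr 1
    refine intervalIntegral.integral_congr fun τ _ => ?_
    simp only [Pi.add_apply]
    ring
  | smul c f hf' hf =>
    have h1 := hf.const_mul c
    rw [mul_zero] at h1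
    refine h1.congr fun i => ?_
    rw [← mul_div_assoc, ← intervalIntegral.integral_const_mul]
    congr 1
    refine intervalIntegral.integral_congr fun τ _ => ?_
    simp only [Pi.smul_apply, smul_eq_mul]
    ring

/-- `f` is at most `η` in the mean over the windows. -/
def Sm {ι : Type} (ℱ : Filter ι) (a T : ι → ℝ) (f : ι → ℝ → ℂ) (η : ℝ) : Prop :=
  ∀ᶠ i in ℱ, ∫⁻ τ in Set.Ioc (a i) (a i + T i), ‖f i τ‖ₑ ≤ ENNReal.ofReal (η * T i)

variable {ι : Type} {ℱ : Filter ι} {a T : ι → ℝ}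

lemma Sm.mono {f g : ι → ℝ → ℂ} {η : ℝ} (hg : Sm ℱ a T g η) (h : ∀ i τ, ‖f i τ‖ ≤ ‖g i τ‖) :
    Sm ℱ a T f η := by
  filter_upwards [hg] with i hi
  refine (lintegral_mono fun τ => ?_).trans hi
  rw [← ofReal_norm, ← ofReal_norm]
  exact ENNReal.ofReal_le_ofReal (h i τ)

lemma Sm.add {f g : ι → ℝ → ℂ} {η η' : ℝ} (hT : Tendsto T ℱ atTop) (hη : 0 ≤ η) (hη' : 0 ≤ η')
    (hf : Sm ℱ a T f η) (hg : Sm ℱ a T g η')
    (hm : ∀ i, AEMeasurable (f i)) : Sm ℱ a T (fun i τ => f i τ + g i τ) (η + η') := by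
  filter_upwards [hf, hg, hT.eventually (eventually_ge_atTop (0 : ℝ))] with i h1 h2 hT
  calc ∫⁻ τ in Set.Ioc (a i) (a i + T i), ‖f i τ + g i τ‖ₑ
      ≤ ∫⁻ τ in Set.Ioc (a i) (a i + T i), (‖f i τ‖ₑ + ‖g i τ‖ₑ) :=
        lintegral_mono fun τ => enorm_add_le _ _
    _ = (∫⁻ τ in Set.Ioc (a i) (a i + T i), ‖f i τ‖ₑ) +
        ∫⁻ τ in Set.Ioc (a i) (a i + T i), ‖g i τ‖ₑ :=
        lintegral_add_left' (hm i).restrict.enorm _
    _ ≤ ENNReal.ofReal (η * T i) + ENNReal.ofReal (η' * T i) := add_le_add h1 h2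
    _ = ENNReal.ofReal ((η + η') * T i) := by
        rw [← ENNReal.ofReal_add (by positivity) (by positivity), add_mul]

lemma Sm.bmul {f g : ι → ℝ → ℂ} {η M : ℝ} (hM : 0 ≤ M) (hg : Sm ℱ a T g η)
    (h : ∀ i τ, ‖f i τ‖ ≤ M) : Sm ℱ a T (fun i τ => f i τ * g i τ) (M * η) := by
  filter_upwards [hg] with i hi
  calc ∫⁻ τ in Set.Ioc (a i) (a i + T i), ‖f i τ * g i τ‖ₑ
      ≤ ∫⁻ τ in Set.Ioc (a i) (a i + T i), ENNReal.ofReal M * ‖g i τ‖ₑ := by
        refine lintegral_mono fun τ => ?_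
        rw [enorm_mul]
        gcongr
        rw [← ofReal_norm]
        exact ENNReal.ofReal_le_ofReal (h i τ)
    _ = ENNReal.ofReal M * ∫⁻ τ in Set.Ioc (a i) (a i + T i), ‖g i τ‖ₑ := by
        rw [lintegral_const_mul' _ _ ENNReal.ofReal_ne_top]
    _ ≤ ENNReal.ofReal M * ENNReal.ofReal (η * T i) := by gcongr
    _ = ENNReal.ofReal (M * η * T i) := by
        rw [← ENNReal.ofReal_mul hM, mul_assoc]

lemma Sm.le {f : ι → ℝ → ℂ} {η η' : ℝ} (hT : Tendsto T ℱ atTop) (h : Sm ℱ a T f η) (hη : η ≤ η') :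
    Sm ℱ a T f η' := by
  filter_upwards [h, hT.eventually (eventually_ge_atTop (0 : ℝ))] with i h1 h2
  exact h1.trans (ENNReal.ofReal_le_ofReal (mul_le_mul_of_nonneg_right hη h2))

/-- The integral of a periodic function over a window. -/
lemma lint_periodic {P : ℝ} (hP : 0 < P) (ψ : ℝ → ℝ≥0∞) (hper : Function.Periodic ψ P) (b : ℝ)
    {T : ℝ} (hT : 0 ≤ T) :
    ∫⁻ τ in Set.Ioc b (b + T), ψ τ ≤ ENNReal.ofReal ((T + P) / P + 1) * ∫⁻ τ in Set.Ioc 0 P, ψ τ := by
  set n : ℤ := ⌊b / P⌋ with hn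
  have h1 : (n : ℝ) * P ≤ b := by
    have := Int.floor_le (b / P)
    rwa [le_div_iff₀ hP] at this
  have h2 : b < ((n : ℝ) + 1) * P := by
    have := Int.lt_floor_add_one (b / P)
    rwa [div_lt_iff₀ hP] at this
  have h3 : MeasurePreserving (fun τ : ℝ => τ + (n : ℝ) * P) volume volume :=
    measurePreserving_add_right volume _
  have h4 : MeasurableEmbedding (fun τ : ℝ => τ + (n : ℝ) * P) := measurableEmbedding_addRight _
  have h5 := h3.setLIntegral_comp_preimage_emb h4 ψ (Set.Ioc b (b + T))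
  rw [← h5]
  have h6 : ∀ τ, ψ (τ + (n : ℝ) * P) = ψ τ := fun τ => hper.int_mul n τ
  simp_rw [h6]
  refine le_trans (lintegral_mono_set ?_) (MD.lint_periodic hP ψ hper (T := T + P) (by linarith))
  intro τ hτ
  simp only [Set.mem_preimage, Set.mem_Ioc] at hτ ⊢
  constructor
  · linarith [hτ.1]
  · nlinarith [hτ.2]

/-- Functions approximable in the mean by trigonometric polynomials not involving `q`. -/
def Cl {ι : Type} (ℱ : Filter ι) (a T : ι → ℝ) (q : ℕ) (g : ι → ℝ → ℂ) : Prop :=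
  (∀ i, AEMeasurable (g i)) ∧ ∀ η : ℝ, 0 < η → ∃ Q ∈ TP q, Sm ℱ a T (fun i τ => g i τ - Q τ) η

lemma Cl.one {q : ℕ} (hq : q.Prime) : Cl ℱ a T q (fun _ _ => 1) := by
  refine ⟨fun _ => aemeasurable_const, fun η hη => ⟨_, one_mem_TP hq, ?_⟩⟩
  unfold Sm
  refine Eventually.of_forall fun i => ?_
  simp

lemma Cl.lim {q : ℕ} (hT : Tendsto T ℱ atTop) {g : ι → ℝ → ℂ} (hgm : ∀ i, AEMeasurable (g i))
    (h : ∀ η : ℝ, 0 < η → ∃ g', Cl ℱ a T q g' ∧ Sm ℱ a T (fun i τ => g i τ - g' i τ) η) :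
    Cl ℱ a T q g := by
  refine ⟨hgm, fun η hη => ?_⟩
  obtain ⟨g', hg', h1⟩ := h (η / 2) (by positivity)
  obtain ⟨Q, hQ, h2⟩ := hg'.2 (η / 2) (by positivity)
  refine ⟨Q, hQ, ?_⟩
  have h3 := h1.add hT (by positivity) (by positivity) h2 (fun i => (hgm i).sub (hg'.1 i))
  rw [add_halves] at h3
  refine h3.mono fun i τ => le_of_eq ?_
  congr 1
  ring

/-- Periodic functions are approximable in the mean by trigonometric polynomials. -/
lemma periodic_approx {p : ℕ} (hT : Tendsto T ℱ atTop) (hp : p.Prime) (φ : ℝ → ℂ)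
    (hm : Measurable φ)
    (B : ℝ) (hb : ∀ τ, ‖φ τ‖ ≤ B) (hper : Function.Periodic φ (2 * Real.pi / Real.log p))
    {η : ℝ} (hη : 0 < η) :
    ∃ c : ℤ →₀ ℂ, Sm ℱ a T (fun _ τ => φ τ - c.sum fun k a => a * ek p k τ) η ∧
      ∫⁻ τ in Set.Ioc 0 (2 * Real.pi / Real.log p), ‖φ τ - c.sum fun k a => a * ek p k τ‖ₑ ≤
        ENNReal.ofReal (η * (2 * Real.pi / Real.log p)) := by
  have hl : 0 < Real.log p := Real.log_pos (by exact_mod_cast hp.one_lt)
  set P := 2 * Real.pi / Real.log p with hPdef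
  have hP : 0 < P := by positivity
  obtain ⟨c, hc⟩ := trig_approx hP φ hm B hb (half_pos hη)
  have heq : ∀ (τ : ℝ) (k : ℤ), Complex.exp (2 * Real.pi * Complex.I * k * τ / P) = ek p k τ := by
    intro τ k
    unfold ek
    congr 1
    rw [hPdef]
    have hpi : (Real.pi : ℂ) ≠ 0 := by exact_mod_cast Real.pi_ne_zero
    have hl' : ((Real.log p : ℝ) : ℂ) ≠ 0 := by exact_mod_cast hl.ne'
    push_cast
    field_simp
  simp_rw [heq] at hc
  refine ⟨c, ?_, hc.trans (ENNReal.ofReal_le_ofReal (by nlinarith))⟩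
  have hekper : ∀ k : ℤ, Function.Periodic (ek p k) P := by
    intro k τ
    unfold ek
    have h1 : ((((τ + P) * (k * Real.log p) : ℝ) : ℂ)) * Complex.I =
        ((τ * (k * Real.log p) : ℝ) : ℂ) * Complex.I + k * (2 * Real.pi * Complex.I) := by
      have h2 : P * Real.log p = 2 * Real.pi := by
        rw [hPdef]
        field_simp
      have h3 : (τ + P) * (k * Real.log p) = τ * (k * Real.log p) + k * (2 * Real.pi) := by
        rw [add_mul]
        congr 1
        calc P * (k * Real.log p) = k * (P * Real.log p) := by ring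
          _ = _ := by rw [h2]
      rw [h3]
      push_cast
      ring
    rw [h1, Complex.exp_add, Complex.exp_int_mul_two_pi_mul_I, mul_one]
  have hψ : Function.Periodic (fun τ => ‖φ τ - c.sum fun k a => a * ek p k τ‖ₑ) P := by
    intro τ
    simp only
    rw [hper τ]
    congr 2
    unfold Finsupp.sum
    refine sum_congr rfl fun k _ => ?_
    beta_reduce
    rw [hekper k τ]
  unfold Sm
  filter_upwards [hT.eventually (eventually_ge_atTop (2 * P)),
    hT.eventually (eventually_ge_atTop (0 : ℝ))] with i hTi hT0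
  refine (lint_periodic hP _ hψ (a i) hT0).trans ?_
  refine (mul_le_mul_right hc (ENNReal.ofReal ((T i + P) / P + 1))).trans ?_
  rw [← ENNReal.ofReal_mul (by positivity)]
  refine ENNReal.ofReal_le_ofReal ?_
  have h1 : ((T i + P) / P + 1) * (η / 2 * P) = η / 2 * (T i + 2 * P) := by
    field_simp
    ring
  rw [h1]
  nlinarith

lemma Cl.mul_periodic {q p : ℕ} (hT : Tendsto T ℱ atTop) (hq : q.Prime) (hp : p.Prime)
    (hpq : p ≠ q) {g : ι → ℝ → ℂ}
    (hg : Cl ℱ a T q g) (φ : ℝ → ℂ) (hm : Measurable φ)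
    (hb : ∀ τ, ‖φ τ‖ ≤ 1) (hper : Function.Periodic φ (2 * Real.pi / Real.log p)) :
    Cl ℱ a T q (fun i τ => φ τ * g i τ) := by
  refine ⟨fun i => hm.aemeasurable.mul (hg.1 i), fun η hη => ?_⟩
  obtain ⟨Q, hQ, h1⟩ := hg.2 (η / 2) (by positivity)
  obtain ⟨M, hM0, hM⟩ := TP_bounded hQ
  obtain ⟨c, h2, -⟩ := periodic_approx (a := a) hT hp φ hm 1 hb hper
    (show 0 < η / (2 * (M + 1)) by positivity)
  refine ⟨_, mul_mem_TP hq (trig_mem_TP hq hp hpq c) hQ, ?_⟩
  have h3 := h1.bmul (f := fun _ => φ) zero_le_one (fun _ => hb)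
  have h4 := h2.bmul (f := fun _ => Q) hM0 (fun _ => hM)
  have h5 := h3.add hT (by positivity) (by positivity) h4
    (fun i => hm.aemeasurable.mul ((hg.1 i).sub (TP_continuous hQ).measurable.aemeasurable))
  have h6 : 1 * (η / 2) + M * (η / (2 * (M + 1))) ≤ η := by
    have : M * (η / (2 * (M + 1))) ≤ η / 2 := by
      rw [← mul_div_assoc, div_le_div_iff₀ (by positivity) (by positivity)]
      nlinarith
    linarith
  refine (h5.le hT h6).mono fun i τ => le_of_eq ?_
  congr 1
  simp only [Pi.mul_apply]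
  ring

/-- Products over finite sets of primes. -/
lemma Cl.prod {q : ℕ} (hT : Tendsto T ℱ atTop) (hq : q.Prime) (F : Finset ℕ)
    (hF : ∀ p ∈ F, p.Prime ∧ p ≠ q)
    (φ : ℕ → ℝ → ℂ) (hm : ∀ p, Measurable (φ p)) (hb : ∀ p τ, ‖φ p τ‖ ≤ 1)
    (hper : ∀ p, p.Prime → Function.Periodic (φ p) (2 * Real.pi / Real.log p)) :
    Cl ℱ a T q (fun _ τ => ∏ p ∈ F, φ p τ) := by
  classical
  induction F using Finset.induction_on with
  | empty => simpa using Cl.one (ℱ := ℱ) (a := a) (T := T) hq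
  | insert p F hpF ih =>
    have h1 := ih fun p' hp' => hF p' (mem_insert_of_mem hp')
    obtain ⟨hp, hpq⟩ := hF p (mem_insert_self _ _)
    have h2 := h1.mul_periodic hT hq hp hpq (φ p) (hm p) (hb p) (hper p hp)
    simpa only [prod_insert hpF] using h2

lemma norm_integral_le_of_lintegral {f : ℝ → ℂ} {b T K : ℝ} (hT : 0 ≤ T) (hK : 0 ≤ K)
    (h : ∫⁻ τ in Set.Ioc b (b + T), ‖f τ‖ₑ ≤ ENNReal.ofReal K) : ‖∫ τ in b..(b + T), f τ‖ ≤ K := by
  rw [intervalIntegral.integral_of_le (by linarith)]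
  have h1 := (enorm_integral_le_lintegral_enorm (μ := volume.restrict (Set.Ioc b (b + T))) f).trans h
  rw [← ofReal_norm, ENNReal.ofReal_le_ofReal_iff hK] at h1
  exact h1

/-- The mean of the product of a function of `q^{iτ}` and a function of the other primes. -/
theorem indep {q : ℕ} (hT : Tendsto T ℱ atTop) (hq : q.Prime) {g : ι → ℝ → ℂ} (hg : Cl ℱ a T q g)
    (hgb : ∀ i τ, ‖g i τ‖ ≤ 1)
    (φ : ℝ → ℂ) (hm : Measurable φ) (hb : ∀ τ, ‖φ τ‖ ≤ 1)
    (hper : Function.Periodic φ (2 * Real.pi / Real.log q)) {η : ℝ} (hη : 0 < η) :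
    ∀ᶠ i in ℱ, ‖∫ τ in (a i)..(a i + T i), φ τ * g i τ‖ ≤
      (‖(∫ τ in (0 : ℝ)..(2 * Real.pi / Real.log q), φ τ) / (2 * Real.pi / Real.log q : ℝ)‖ + η) *
        T i := by
  have hl : 0 < Real.log q := Real.log_pos (by exact_mod_cast hq.one_lt)
  set P := 2 * Real.pi / Real.log q with hPdef
  have hP : 0 < P := by positivity
  set J : ℂ := (∫ τ in (0 : ℝ)..P, φ τ) / (P : ℝ) with hJ
  set δ := min 1 (η / 7) with hδdef
  have hδ : 0 < δ := lt_min one_pos (by positivity)
  have hδ1 : δ ≤ 1 := min_le_left _ _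
  have hδ2 : δ ≤ η / 7 := min_le_right _ _
  obtain ⟨c, h1, h2⟩ := periodic_approx (a := a) hT hq φ hm 1 hb hper hδ
  set t : ℝ → ℂ := fun τ => c.sum fun k a => a * ek q k τ with ht
  set M : ℝ := ∑ k ∈ c.support, ‖c k‖ with hM
  have hM0 : 0 ≤ M := sum_nonneg fun _ _ => norm_nonneg _
  have htM : ∀ τ, ‖t τ‖ ≤ M := by
    intro τ
    simp only [ht, Finsupp.sum]
    refine (norm_sum_le _ _).trans (le_of_eq (sum_congr rfl fun k _ => ?_))
    rw [norm_mul, norm_ek, mul_one]
  have htc : Continuous t := by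
    simp only [ht, Finsupp.sum]
    exact continuous_finsetSum _ fun k _ => continuous_const.mul (continuous_ek q k)
  obtain ⟨Q, hQ, h3⟩ := hg.2 (δ / (M + 1)) (by positivity)
  have hQc := TP_continuous hQ
  have hJ1 : ‖J‖ ≤ 1 := by
    rw [hJ, norm_div, Complex.norm_real, Real.norm_of_nonneg hP.le, div_le_one hP]
    have := intervalIntegral.norm_integral_le_of_norm_le_const (C := 1) (f := φ) (a := 0) (b := P)
      fun τ _ => hb τ
    rw [sub_zero, abs_of_pos hP, one_mul] at this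
    exact this
  -- the constant coefficient
  have hc0 : ‖c 0‖ ≤ ‖J‖ + δ := by
    have hek : ∀ k : ℤ, k ≠ 0 → ∫ τ in (0 : ℝ)..P, ek q k τ = 0 := by
      intro k hk
      unfold ek
      have hkc : ((k : ℝ) * Real.log q * Complex.I : ℂ) ≠ 0 := by
        refine mul_ne_zero (mul_ne_zero ?_ ?_) Complex.I_ne_zero
        · exact_mod_cast hk
        · exact_mod_cast hl.ne'
      have e1 : ∀ τ : ℝ, Complex.exp ((τ * (k * Real.log q) : ℝ) * Complex.I) =
          Complex.exp (((k : ℝ) * Real.log q * Complex.I : ℂ) * τ) := by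
        intro τ
        congr 1
        push_cast
        ring
      simp_rw [e1]
      rw [integral_exp_mul_complex hkc]
      have e2 : ((k : ℝ) * Real.log q * Complex.I : ℂ) * (P : ℝ) = k * (2 * Real.pi * Complex.I) := by
        rw [hPdef]
        have hl' : ((Real.log q : ℝ) : ℂ) ≠ 0 := by exact_mod_cast hl.ne'
        rw [Complex.ofReal_div, Complex.ofReal_mul]
        field_simp
        push_cast
        ring
      rw [e2, Complex.exp_int_mul_two_pi_mul_I]
      simp
    have ht0 : ∫ τ in (0 : ℝ)..P, t τ = c 0 * P := by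
      simp only [ht, Finsupp.sum]
      rw [intervalIntegral.integral_finsetSum]
      · have e3 : ∀ k ∈ c.support, ∫ τ in (0 : ℝ)..P, c k * ek q k τ = if k = 0 then c 0 * P else 0 := by
          intro k _
          rw [intervalIntegral.integral_const_mul]
          split_ifs with hk
          · subst hk
            simp [ek_zero]
          · rw [hek k hk, mul_zero]
        rw [sum_congr rfl e3, sum_ite_eq']
        split_ifs with h0
        · rfl
        · rw [Finsupp.notMem_support_iff] at h0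
          rw [h0, zero_mul]
      · intro k _
        exact (continuous_const.mul (continuous_ek q k)).intervalIntegrable _ _
    have h4 : ‖∫ τ in (0 : ℝ)..P, (φ τ - t τ)‖ ≤ δ * P :=
      MD.norm_integral_le_of_lintegral hP.le (by positivity) h2
    rw [intervalIntegral.integral_sub (intInt_of_bound hm.aemeasurable hb _ _)
      (htc.intervalIntegrable _ _), ht0] at h4
    have h5 : c 0 * P = J * P - ((∫ τ in (0 : ℝ)..P, φ τ) - c 0 * P) := by
      rw [hJ]
      have : (P : ℂ) ≠ 0 := by exact_mod_cast hP.ne'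
      field_simp
      ring
    have h6 : ‖c 0‖ * P ≤ (‖J‖ + δ) * P := by
      have h7 : ‖c 0 * P‖ = ‖c 0‖ * P := by
        rw [norm_mul, Complex.norm_real, Real.norm_of_nonneg hP.le]
      rw [← h7, h5]
      refine (norm_sub_le _ _).trans ?_
      rw [norm_mul, Complex.norm_real, Real.norm_of_nonneg hP.le]
      linarith
    exact le_of_mul_le_mul_right h6 hP
  -- the other coefficients
  have hrest : Tendsto (fun i => ∑ k ∈ c.support.erase 0,
      c k * ((∫ τ in (a i)..(a i + T i), ek q k τ * Q τ) / T i)) ℱ (𝓝 0) := by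
    have : (0 : ℂ) = ∑ k ∈ c.support.erase 0, c k * 0 := by simp
    rw [this]
    exact tendsto_finsetSum _ fun k hk => (mean_ek_mul hT hq (ne_of_mem_erase hk) hQ).const_mul _
  have hrest' := hrest.norm.eventually (gt_mem_nhds (show ‖(0 : ℂ)‖ < δ by rwa [norm_zero]))
  filter_upwards [h1, h3, hrest', hT.eventually (eventually_gt_atTop (0 : ℝ))] with i e1 e3 e4 hTi
  set b := a i with hb'
  set S := T i with hS
  have i1 : ‖∫ τ in b..(b + S), (φ τ - t τ) * g i τ‖ ≤ δ * S := by
    refine norm_integral_le_of_lintegral hTi.le (by positivity) (le_trans ?_ e1)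
    refine lintegral_mono fun τ => ?_
    rw [enorm_mul]
    calc ‖φ τ - t τ‖ₑ * ‖g i τ‖ₑ ≤ ‖φ τ - t τ‖ₑ * 1 := by
          gcongr
          rw [← ofReal_norm, ← ENNReal.ofReal_one]
          exact ENNReal.ofReal_le_ofReal (hgb i τ)
      _ = _ := mul_one _
  have i2 : ‖∫ τ in b..(b + S), t τ * (g i τ - Q τ)‖ ≤ δ * S := by
    refine norm_integral_le_of_lintegral hTi.le (by positivity) ?_
    calc ∫⁻ τ in Set.Ioc b (b + S), ‖t τ * (g i τ - Q τ)‖ₑ
        ≤ ∫⁻ τ in Set.Ioc b (b + S), ENNReal.ofReal M * ‖g i τ - Q τ‖ₑ := by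
          refine lintegral_mono fun τ => ?_
          rw [enorm_mul]
          gcongr
          rw [← ofReal_norm]
          exact ENNReal.ofReal_le_ofReal (htM τ)
      _ = ENNReal.ofReal M * ∫⁻ τ in Set.Ioc b (b + S), ‖g i τ - Q τ‖ₑ := by
          rw [lintegral_const_mul' _ _ ENNReal.ofReal_ne_top]
      _ ≤ ENNReal.ofReal M * ENNReal.ofReal (δ / (M + 1) * S) := by gcongr
      _ = ENNReal.ofReal (M * (δ / (M + 1) * S)) := by rw [← ENNReal.ofReal_mul hM0]
      _ ≤ ENNReal.ofReal (δ * S) := by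
          refine ENNReal.ofReal_le_ofReal ?_
          have h5 : M * (δ / (M + 1) * S) = (M / (M + 1)) * (δ * S) := by ring
          rw [h5]
          have h6 : M / (M + 1) ≤ 1 := by
            rw [div_le_one (by positivity)]
            linarith
          calc (M / (M + 1)) * (δ * S) ≤ 1 * (δ * S) :=
                mul_le_mul_of_nonneg_right h6 (by positivity)
            _ = _ := one_mul _
  have i3 : ‖∫ τ in b..(b + S), (g i τ - Q τ)‖ ≤ δ * S := by
    refine norm_integral_le_of_lintegral hTi.le (by positivity) (e3.trans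
      (ENNReal.ofReal_le_ofReal ?_))
    refine mul_le_mul_of_nonneg_right ?_ hTi.le
    exact div_le_self hδ.le (by linarith)
  have i4 : ‖∫ τ in b..(b + S), Q τ‖ ≤ (1 + δ) * S := by
    have h5 : ∫ τ in b..(b + S), Q τ = (∫ τ in b..(b + S), g i τ) -
        ∫ τ in b..(b + S), (g i τ - Q τ) := by
      rw [intervalIntegral.integral_sub (intInt_of_bound (hg.1 i) (hgb i) _ _)
        (hQc.intervalIntegrable _ _)]
      ring
    rw [h5]
    refine (norm_sub_le _ _).trans ?_
    have h6 := intervalIntegral.norm_integral_le_of_norm_le_const (C := 1) (f := g i) (a := b)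
      (b := b + S) fun τ _ => hgb i τ
    rw [add_sub_cancel_left, abs_of_pos hTi, one_mul] at h6
    linarith
  have i5 : ∫ τ in b..(b + S), t τ * Q τ = c 0 * (∫ τ in b..(b + S), Q τ) +
      (∑ k ∈ c.support.erase 0, c k * ((∫ τ in b..(b + S), ek q k τ * Q τ) / S)) * S := by
    have h5 : ∀ τ, t τ * Q τ = ∑ k ∈ c.support, c k * (ek q k τ * Q τ) := by
      intro τ
      simp only [ht, Finsupp.sum, sum_mul]
      exact sum_congr rfl fun k _ => by ring
    simp_rw [h5]
    rw [intervalIntegral.integral_finsetSum]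
    · have h6 : ∀ k, ∫ τ in b..(b + S), c k * (ek q k τ * Q τ) =
          c k * ∫ τ in b..(b + S), ek q k τ * Q τ := fun k =>
        intervalIntegral.integral_const_mul _ _
      simp_rw [h6]
      have hTc : (S : ℂ) ≠ 0 := by exact_mod_cast hTi.ne'
      rw [sum_mul]
      have h7 : ∀ k ∈ c.support.erase 0, c k * ((∫ τ in b..(b + S), ek q k τ * Q τ) / S) * S =
          c k * ∫ τ in b..(b + S), ek q k τ * Q τ := by
        intro k _
        field_simp
      rw [sum_congr rfl h7]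
      by_cases h0 : (0 : ℤ) ∈ c.support
      · rw [← add_sum_erase _ _ h0]
        congr 2
        refine intervalIntegral.integral_congr fun τ _ => ?_
        simp only [ek_zero, one_mul]
      · rw [Finsupp.notMem_support_iff] at h0
        rw [h0, zero_mul, zero_add, erase_eq_of_notMem]
        rwa [Finsupp.notMem_support_iff]
    · intro k _
      exact (continuous_const.mul ((continuous_ek q k).mul hQc)).intervalIntegrable _ _
  have hsplit : ∫ τ in b..(b + S), φ τ * g i τ = (∫ τ in b..(b + S), (φ τ - t τ) * g i τ) +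
      (∫ τ in b..(b + S), t τ * (g i τ - Q τ)) + ∫ τ in b..(b + S), t τ * Q τ := by
    have j1 : IntervalIntegrable (fun τ => (φ τ - t τ) * g i τ) volume b (b + S) := by
      refine intInt_of_bound ((hm.aemeasurable.sub htc.measurable.aemeasurable).mul (hg.1 i))
        (B := (1 + M) * 1) (fun τ => ?_) _ _
      show ‖(φ τ - t τ) * g i τ‖ ≤ _
      rw [norm_mul]
      exact mul_le_mul ((norm_sub_le _ _).trans (add_le_add (hb τ) (htM τ))) (hgb i τ)
        (norm_nonneg _) (by positivity)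
    obtain ⟨M', hM'0, hM'⟩ := TP_bounded hQ
    have j2 : IntervalIntegrable (fun τ => t τ * (g i τ - Q τ)) volume b (b + S) := by
      refine intInt_of_bound (htc.measurable.aemeasurable.mul
        ((hg.1 i).sub hQc.measurable.aemeasurable)) (B := M * (1 + M')) (fun τ => ?_) _ _
      show ‖t τ * (g i τ - Q τ)‖ ≤ _
      rw [norm_mul]
      exact mul_le_mul (htM τ) ((norm_sub_le _ _).trans (add_le_add (hgb i τ) (hM' τ)))
        (norm_nonneg _) hM0
    have j3 : IntervalIntegrable (fun τ => t τ * Q τ) volume b (b + S) :=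
      (htc.mul hQc).intervalIntegrable _ _
    rw [← intervalIntegral.integral_add j1 j2, ← intervalIntegral.integral_add (j1.add j2) j3]
    refine intervalIntegral.integral_congr fun τ _ => ?_
    show φ τ * g i τ = (φ τ - t τ) * g i τ + t τ * (g i τ - Q τ) + t τ * Q τ
    ring
  rw [hsplit, i5]
  set R : ℂ := ∑ k ∈ c.support.erase 0, c k * ((∫ τ in b..(b + S), ek q k τ * Q τ) / S) with hR
  have i6 : ‖c 0 * (∫ τ in b..(b + S), Q τ)‖ ≤ (‖J‖ + δ) * ((1 + δ) * S) := by
    rw [norm_mul]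
    exact mul_le_mul hc0 i4 (norm_nonneg _) (by positivity)
  have i7 : ‖R * S‖ ≤ δ * S := by
    rw [norm_mul, Complex.norm_real, Real.norm_of_nonneg hTi.le]
    exact mul_le_mul_of_nonneg_right e4.le hTi.le
  have i8 : ‖(∫ τ in b..(b + S), (φ τ - t τ) * g i τ) +
      (∫ τ in b..(b + S), t τ * (g i τ - Q τ)) + (c 0 * (∫ τ in b..(b + S), Q τ) + R * S)‖ ≤
      δ * S + δ * S + ((‖J‖ + δ) * ((1 + δ) * S) + δ * S) :=
    (norm_add_le _ _).trans (add_le_add ((norm_add_le _ _).trans (add_le_add i1 i2))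
      ((norm_add_le _ _).trans (add_le_add i6 i7)))
  refine i8.trans ?_
  have h9 : (‖J‖ + δ) * (1 + δ) ≤ ‖J‖ + 3 * δ := by
    nlinarith [norm_nonneg J]
  have h10 : (‖J‖ + δ) * ((1 + δ) * S) = (‖J‖ + δ) * (1 + δ) * S := by ring
  have h11 := mul_le_mul_of_nonneg_right h9 hTi.le
  have h12 : δ * S ≤ η / 7 * S := mul_le_mul_of_nonneg_right hδ2 hTi.le
  rw [h10]
  have h13 : (‖J‖ + η) * S = ‖J‖ * S + 7 * (η / 7 * S) := by ring
  rw [h13]
  nlinarith

end Pool.Agent.Y774.FP
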